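import Mathlib

set_option autoImplicit false

/-! An upper bound for the twin prime constant. -/

namespace Pool.Agent.V11300.G6

/-- the odd primes below `500` -/
def tw : List ℕ := [3, 5, 7, 11, 13, 17, 19, 23, 29, 31, 37, 41, 43, 47, 53, 59, 61, 67, 71, 73, 79, 83, 89, 97,
  101, 103, 107, 109, 113, 127, 131, 137, 139, 149, 151, 157, 163, 167, 173, 179, 181, 191, 193, 197, 199,
  211, 223, 227, 229, 233, 239, 241, 251, 257, 263, 269, 271, 277, 281, 283, 293, 307, 311, 313, 317, 331,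
  337, 347, 349, 353, 359, 367, 373, 379, 383, 389, 397, 401, 409, 419, 421, 431, 433, 439, 443, 449, 457,
  461, 463, 467, 479, 487, 491, 499]

theorem tw_prime : ∀ q ∈ tw, q.Prime ∧ 2 < q := by
  intro q hq
  unfold tw at hq
  simp only [List.mem_cons, List.not_mem_nil, or_false] at hq
  rcases hq with h | h | h | h | h | h | h | h | h | h | h | h | h | h | h | h | h | h | h | h |
    h | h | h | h | h | h | h | h | h | h | h | h | h | h | h | h | h | h | h | h |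
    h | h | h | h | h | h | h | h | h | h | h | h | h | h | h | h | h | h | h | h |
    h | h | h | h | h | h | h | h | h | h | h | h | h | h | h | h | h | h | h | h |
    h | h | h | h | h | h | h | h | h | h | h | h | h | h <;> subst h <;> norm_num

theorem prod_list (L : List ℕ) (hL : ∀ q ∈ L, 2 < q) :
    (L.map (fun q : ℕ => 1 - 1 / ((q : ℝ) - 1) ^ 2)).prod * (((L.map (fun q : ℕ => (q - 1) ^ 2)).prod : ℕ) : ℝ) =
      (((L.map (fun q : ℕ => q * (q - 2))).prod : ℕ) : ℝ) := by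
  induction L with
  | nil => simp
  | cons q L ih =>
    have hq : 2 < q := hL q (by simp)
    have ih' := ih (fun p hp => hL p (by simp [hp]))
    obtain ⟨r, rfl⟩ : ∃ r, q = r + 3 := ⟨q - 3, by omega⟩
    rw [List.map_cons, List.map_cons, List.map_cons, List.prod_cons, List.prod_cons, List.prod_cons]
    have e1 : r + 3 - 1 = r + 2 := by omega
    have e2 : r + 3 - 2 = r + 1 := by omega
    rw [e1, e2]
    generalize (L.map (fun q : ℕ => 1 - 1 / ((q : ℝ) - 1) ^ 2)).prod = x at ih' ⊢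
    generalize (L.map (fun q : ℕ => (q - 1) ^ 2)).prod = y at ih' ⊢
    generalize (L.map (fun q : ℕ => q * (q - 2))).prod = z at ih' ⊢
    push_cast
    have h1 : ((r : ℝ) + 3 - 1) = r + 2 := by ring
    have h0 : ((r : ℝ) + 2) ≠ 0 := by positivity
    rw [h1, ← ih']
    field_simp
    ring

theorem tw_bound : (tw.map (fun q : ℕ => 1 - 1 / ((q : ℝ) - 1) ^ 2)).prod ≤ 6603426 / 10000000 := by
  have h := prod_list tw (fun q hq => (tw_prime q hq).2)
  have h2 : ((tw.map (fun q => q * (q - 2))).prod) * 10000000 ≤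
      6603426 * ((tw.map (fun q => (q - 1) ^ 2)).prod) := by decide +kernel
  have h3 : 0 < (tw.map (fun q => (q - 1) ^ 2)).prod := by decide +kernel
  have h2' : (((tw.map (fun q : ℕ => q * (q - 2))).prod : ℕ) : ℝ) * 10000000 ≤
      6603426 * (((tw.map (fun q : ℕ => (q - 1) ^ 2)).prod : ℕ) : ℝ) := by exact_mod_cast h2
  have h3' : (0 : ℝ) < (((tw.map (fun q : ℕ => (q - 1) ^ 2)).prod : ℕ) : ℝ) := by exact_mod_cast h3
  rw [← h] at h2'
  rw [le_div_iff₀ (by norm_num)]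
  have h4 : (tw.map (fun q : ℕ => 1 - 1 / ((q : ℝ) - 1) ^ 2)).prod * 10000000 *
      (((tw.map (fun q : ℕ => (q - 1) ^ 2)).prod : ℕ) : ℝ) ≤
        6603426 * (((tw.map (fun q : ℕ => (q - 1) ^ 2)).prod : ℕ) : ℝ) := by
    linarith
  exact le_of_mul_le_mul_right h4 h3'

theorem factor_mem (q : {q : ℕ // q.Prime ∧ 2 < q}) :
    0 ≤ 1 - 1 / ((q : ℕ) - 1 : ℝ) ^ 2 ∧ 1 - 1 / ((q : ℕ) - 1 : ℝ) ^ 2 ≤ 1 := by
  have h1 : (3 : ℝ) ≤ (q : ℕ) := by exact_mod_cast q.2.2
  have h2 : (1 : ℝ) ≤ ((q : ℕ) - 1 : ℝ) ^ 2 := by nlinarith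
  constructor
  · have : 1 / ((q : ℕ) - 1 : ℝ) ^ 2 ≤ 1 := by
      rw [div_le_one (by linarith)]
      exact h2
    linarith
  · have : 0 ≤ 1 / ((q : ℕ) - 1 : ℝ) ^ 2 := by positivity
    linarith

theorem multipliable_twin :
    Multipliable (fun q : {q : ℕ // q.Prime ∧ 2 < q} => 1 - 1 / ((q : ℕ) - 1 : ℝ) ^ 2) := by
  have h1 : Summable (fun q : {q : ℕ // q.Prime ∧ 2 < q} => -(1 / ((q : ℕ) - 1 : ℝ) ^ 2)) := by
    apply Summable.neg
    have h2 : Summable (fun n : ℕ => 4 * (1 / (n : ℝ) ^ 2)) :=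
      (Real.summable_one_div_nat_pow.2 (by norm_num)).mul_left 4
    have h3 : Summable (fun q : {q : ℕ // q.Prime ∧ 2 < q} => 4 * (1 / ((q : ℕ) : ℝ) ^ 2)) :=
      h2.comp_injective Subtype.val_injective
    refine Summable.of_nonneg_of_le (fun q => by positivity) (fun q => ?_) h3
    have h4 : (3 : ℝ) ≤ (q : ℕ) := by exact_mod_cast q.2.2
    rw [div_le_iff₀ (by nlinarith)]
    have h5 : (0 : ℝ) < ((q : ℕ) : ℝ) ^ 2 := by positivity
    have h6 : 4 * (1 / ((q : ℕ) : ℝ) ^ 2) * (((q : ℕ) : ℝ) - 1) ^ 2 =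
        4 * (((q : ℕ) : ℝ) - 1) ^ 2 / ((q : ℕ) : ℝ) ^ 2 := by ring
    rw [h6, le_div_iff₀ h5]
    nlinarith
  have h7 := Real.multipliable_one_add_of_summable h1
  refine h7.congr (fun q => ?_)
  ring

theorem twin_le : (∏' q : {q : ℕ // q.Prime ∧ 2 < q}, (1 - 1 / ((q : ℕ) - 1 : ℝ) ^ 2)) ≤
    6603426 / 10000000 := by
  refine le_trans ?_ tw_bound
  have hnd : tw.Nodup := by decide +kernel
  rw [← List.prod_toFinset _ hnd]
  have e := Finset.prod_subtype_of_mem (s := tw.toFinset)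
    (f := fun q : ℕ => 1 - 1 / ((q : ℝ) - 1) ^ 2) (p := fun q => q.Prime ∧ 2 < q)
    (fun q hq => tw_prime q (List.mem_toFinset.1 hq))
  rw [← e]
  set s0 := Finset.subtype (fun q : ℕ => q.Prime ∧ 2 < q) tw.toFinset
  have hp := multipliable_twin.hasProd
  apply le_of_tendsto hp
  rw [SummationFilter.unconditional_filter, Filter.eventually_atTop]
  refine ⟨s0, fun s hs => ?_⟩
  rw [← Finset.prod_sdiff hs]
  have h1 : (0 : ℝ) ≤ ∏ q ∈ s0, (1 - 1 / (((q : {q : ℕ // q.Prime ∧ 2 < q}) : ℕ) - 1 : ℝ) ^ 2) :=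
    Finset.prod_nonneg (fun q _ => (factor_mem q).1)
  have h2 : ∏ q ∈ s \ s0, (1 - 1 / (((q : {q : ℕ // q.Prime ∧ 2 < q}) : ℕ) - 1 : ℝ) ^ 2) ≤ 1 :=
    Finset.prod_le_one (fun q _ => (factor_mem q).1) (fun q _ => (factor_mem q).2)
  calc _ ≤ 1 * ∏ q ∈ s0, (1 - 1 / (((q : {q : ℕ // q.Prime ∧ 2 < q}) : ℕ) - 1 : ℝ) ^ 2) :=
        mul_le_mul_of_nonneg_right h2 h1
    _ = _ := one_mul _

end Pool.Agent.V11300.G6
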