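import Pool.Agent.V11300.KS.Complete

set_option autoImplicit false
set_option maxRecDepth 100000

namespace Pool.Agent.V11300.G6

open Pool.Agent.V11300.KSW

theorem c4 : Nat.ble 40842870 (total (flds 18 13 262144 1048576 ps) 13 1048576 20000000000 32) = true := by
  decide +kernel

theorem b4 : (40842870 : ℝ) / 10000000000 ≤ ∑ n ∈ Finset.range 262144, G (1048576 + n) := by
  have h := seg_bound' (M := 18) (t := 13) (K := 32) (by norm_num) (by norm_num) (by norm_num) (by norm_num)
    (by norm_num) (by norm_num) c4
  exact_mod_cast h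

theorem c5 : Nat.ble 32305393 (total (flds 18 13 262144 1310720 ps) 13 1310720 20000000000 32) = true := by
  decide +kernel

theorem b5 : (32305393 : ℝ) / 10000000000 ≤ ∑ n ∈ Finset.range 262144, G (1310720 + n) := by
  have h := seg_bound' (M := 18) (t := 13) (K := 32) (by norm_num) (by norm_num) (by norm_num) (by norm_num)
    (by norm_num) (by norm_num) c5
  exact_mod_cast h

theorem d5 : (73148263 : ℝ) / 10000000000 ≤ ∑ n ∈ Finset.range 524288, G (1048576 + n) := by
  have h := join b4 b5
  norm_num at h ⊢
  exact h

theorem c6 : Nat.ble 26470260 (total (flds 18 13 262144 1572864 ps) 13 1572864 20000000000 32) = true := by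
  decide +kernel

theorem b6 : (26470260 : ℝ) / 10000000000 ≤ ∑ n ∈ Finset.range 262144, G (1572864 + n) := by
  have h := seg_bound' (M := 18) (t := 13) (K := 32) (by norm_num) (by norm_num) (by norm_num) (by norm_num)
    (by norm_num) (by norm_num) c6
  exact_mod_cast h

theorem d6 : (99618523 : ℝ) / 10000000000 ≤ ∑ n ∈ Finset.range 786432, G (1048576 + n) := by
  have h := join d5 b6
  norm_num at h ⊢
  exact h

theorem c7 : Nat.ble 22804713 (total (flds 18 13 262144 1835008 ps) 13 1835008 20000000000 32) = true := by
  decide +kernel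

theorem b7 : (22804713 : ℝ) / 10000000000 ≤ ∑ n ∈ Finset.range 262144, G (1835008 + n) := by
  have h := seg_bound' (M := 18) (t := 13) (K := 32) (by norm_num) (by norm_num) (by norm_num) (by norm_num)
    (by norm_num) (by norm_num) c7
  exact_mod_cast h

theorem d7 : (122423236 : ℝ) / 10000000000 ≤ ∑ n ∈ Finset.range 1048576, G (1048576 + n) := by
  have h := join d6 b7
  norm_num at h ⊢
  exact h

theorem c8 : Nat.ble 19893756 (total (flds 18 13 262144 2097152 ps) 13 2097152 20000000000 32) = true := by
  decide +kernel

theorem b8 : (19893756 : ℝ) / 10000000000 ≤ ∑ n ∈ Finset.range 262144, G (2097152 + n) := by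
  have h := seg_bound' (M := 18) (t := 13) (K := 32) (by norm_num) (by norm_num) (by norm_num) (by norm_num)
    (by norm_num) (by norm_num) c8
  exact_mod_cast h

theorem d8 : (142316992 : ℝ) / 10000000000 ≤ ∑ n ∈ Finset.range 1310720, G (1048576 + n) := by
  have h := join d7 b8
  norm_num at h ⊢
  exact h

theorem c9 : Nat.ble 17689320 (total (flds 18 13 262144 2359296 ps) 13 2359296 20000000000 32) = true := by
  decide +kernel

theorem b9 : (17689320 : ℝ) / 10000000000 ≤ ∑ n ∈ Finset.range 262144, G (2359296 + n) := by
  have h := seg_bound' (M := 18) (t := 13) (K := 32) (by norm_num) (by norm_num) (by norm_num) (by norm_num)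
    (by norm_num) (by norm_num) c9
  exact_mod_cast h

theorem d9 : (160006312 : ℝ) / 10000000000 ≤ ∑ n ∈ Finset.range 1572864, G (1048576 + n) := by
  have h := join d8 b9
  norm_num at h ⊢
  exact h

theorem c10 : Nat.ble 15750821 (total (flds 18 13 262144 2621440 ps) 13 2621440 20000000000 32) = true := by
  decide +kernel

theorem b10 : (15750821 : ℝ) / 10000000000 ≤ ∑ n ∈ Finset.range 262144, G (2621440 + n) := by
  have h := seg_bound' (M := 18) (t := 13) (K := 32) (by norm_num) (by norm_num) (by norm_num) (by norm_num)
    (by norm_num) (by norm_num) c10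
  exact_mod_cast h

theorem d10 : (175757133 : ℝ) / 10000000000 ≤ ∑ n ∈ Finset.range 1835008, G (1048576 + n) := by
  have h := join d9 b10
  norm_num at h ⊢
  exact h

theorem c11 : Nat.ble 14396464 (total (flds 18 13 262144 2883584 ps) 13 2883584 20000000000 32) = true := by
  decide +kernel

theorem b11 : (14396464 : ℝ) / 10000000000 ≤ ∑ n ∈ Finset.range 262144, G (2883584 + n) := by
  have h := seg_bound' (M := 18) (t := 13) (K := 32) (by norm_num) (by norm_num) (by norm_num) (by norm_num)
    (by norm_num) (by norm_num) c11
  exact_mod_cast h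

theorem d11 : (190153597 : ℝ) / 10000000000 ≤ ∑ n ∈ Finset.range 2097152, G (1048576 + n) := by
  have h := join d10 b11
  norm_num at h ⊢
  exact h

end Pool.Agent.V11300.G6
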