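import Pool.Agent.V11300.KS.Complete

set_option autoImplicit false
set_option maxRecDepth 100000

namespace Pool.Agent.V11300.G6

open Pool.Agent.V11300.KSW

theorem c12 : Nat.ble 13060938 (total (flds 18 13 262144 3145728 ps) 13 3145728 20000000000 32) = true := by
  decide +kernel

theorem b12 : (13060938 : ℝ) / 10000000000 ≤ ∑ n ∈ Finset.range 262144, G (3145728 + n) := by
  have h := seg_bound' (M := 18) (t := 13) (K := 32) (by norm_num) (by norm_num) (by norm_num) (by norm_num)
    (by norm_num) (by norm_num) c12
  exact_mod_cast h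

theorem c13 : Nat.ble 12017425 (total (flds 18 13 262144 3407872 ps) 13 3407872 20000000000 32) = true := by
  decide +kernel

theorem b13 : (12017425 : ℝ) / 10000000000 ≤ ∑ n ∈ Finset.range 262144, G (3407872 + n) := by
  have h := seg_bound' (M := 18) (t := 13) (K := 32) (by norm_num) (by norm_num) (by norm_num) (by norm_num)
    (by norm_num) (by norm_num) c13
  exact_mod_cast h

theorem d13 : (25078363 : ℝ) / 10000000000 ≤ ∑ n ∈ Finset.range 524288, G (3145728 + n) := by
  have h := join b12 b13
  norm_num at h ⊢
  exact h

theorem c14 : Nat.ble 10906768 (total (flds 18 13 262144 3670016 ps) 13 3670016 20000000000 32) = true := by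
  decide +kernel

theorem b14 : (10906768 : ℝ) / 10000000000 ≤ ∑ n ∈ Finset.range 262144, G (3670016 + n) := by
  have h := seg_bound' (M := 18) (t := 13) (K := 32) (by norm_num) (by norm_num) (by norm_num) (by norm_num)
    (by norm_num) (by norm_num) c14
  exact_mod_cast h

theorem d14 : (35985131 : ℝ) / 10000000000 ≤ ∑ n ∈ Finset.range 786432, G (3145728 + n) := by
  have h := join d13 b14
  norm_num at h ⊢
  exact h

theorem c15 : Nat.ble 10261493 (total (flds 18 13 262144 3932160 ps) 13 3932160 20000000000 32) = true := by
  decide +kernel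

theorem b15 : (10261493 : ℝ) / 10000000000 ≤ ∑ n ∈ Finset.range 262144, G (3932160 + n) := by
  have h := seg_bound' (M := 18) (t := 13) (K := 32) (by norm_num) (by norm_num) (by norm_num) (by norm_num)
    (by norm_num) (by norm_num) c15
  exact_mod_cast h

theorem d15 : (46246624 : ℝ) / 10000000000 ≤ ∑ n ∈ Finset.range 1048576, G (3145728 + n) := by
  have h := join d14 b15
  norm_num at h ⊢
  exact h

theorem c16 : Nat.ble 9610803 (total (flds 18 13 262144 4194304 ps) 13 4194304 20000000000 32) = true := by
  decide +kernel

theorem b16 : (9610803 : ℝ) / 10000000000 ≤ ∑ n ∈ Finset.range 262144, G (4194304 + n) := by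
  have h := seg_bound' (M := 18) (t := 13) (K := 32) (by norm_num) (by norm_num) (by norm_num) (by norm_num)
    (by norm_num) (by norm_num) c16
  exact_mod_cast h

theorem d16 : (55857427 : ℝ) / 10000000000 ≤ ∑ n ∈ Finset.range 1310720, G (3145728 + n) := by
  have h := join d15 b16
  norm_num at h ⊢
  exact h

theorem c17 : Nat.ble 9060424 (total (flds 18 13 262144 4456448 ps) 13 4456448 20000000000 32) = true := by
  decide +kernel

theorem b17 : (9060424 : ℝ) / 10000000000 ≤ ∑ n ∈ Finset.range 262144, G (4456448 + n) := by
  have h := seg_bound' (M := 18) (t := 13) (K := 32) (by norm_num) (by norm_num) (by norm_num) (by norm_num)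
    (by norm_num) (by norm_num) c17
  exact_mod_cast h

theorem d17 : (64917851 : ℝ) / 10000000000 ≤ ∑ n ∈ Finset.range 1572864, G (3145728 + n) := by
  have h := join d16 b17
  norm_num at h ⊢
  exact h

theorem c18 : Nat.ble 8463073 (total (flds 18 13 262144 4718592 ps) 13 4718592 20000000000 32) = true := by
  decide +kernel

theorem b18 : (8463073 : ℝ) / 10000000000 ≤ ∑ n ∈ Finset.range 262144, G (4718592 + n) := by
  have h := seg_bound' (M := 18) (t := 13) (K := 32) (by norm_num) (by norm_num) (by norm_num) (by norm_num)
    (by norm_num) (by norm_num) c18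
  exact_mod_cast h

theorem d18 : (73380924 : ℝ) / 10000000000 ≤ ∑ n ∈ Finset.range 1835008, G (3145728 + n) := by
  have h := join d17 b18
  norm_num at h ⊢
  exact h

theorem c19 : Nat.ble 7873625 (total (flds 18 13 262144 4980736 ps) 13 4980736 20000000000 32) = true := by
  decide +kernel

theorem b19 : (7873625 : ℝ) / 10000000000 ≤ ∑ n ∈ Finset.range 262144, G (4980736 + n) := by
  have h := seg_bound' (M := 18) (t := 13) (K := 32) (by norm_num) (by norm_num) (by norm_num) (by norm_num)
    (by norm_num) (by norm_num) c19
  exact_mod_cast h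

theorem d19 : (81254549 : ℝ) / 10000000000 ≤ ∑ n ∈ Finset.range 2097152, G (3145728 + n) := by
  have h := join d18 b19
  norm_num at h ⊢
  exact h

end Pool.Agent.V11300.G6
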