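import Pool.Agent.V11300.KS.Complete

set_option autoImplicit false
set_option maxRecDepth 100000

namespace Pool.Agent.V11300.G6

open Pool.Agent.V11300.KSW

theorem c20 : Nat.ble 7521570 (total (flds 18 13 262144 5242880 ps) 13 5242880 20000000000 32) = true := by
  decide +kernel

theorem b20 : (7521570 : ℝ) / 10000000000 ≤ ∑ n ∈ Finset.range 262144, G (5242880 + n) := by
  have h := seg_bound' (M := 18) (t := 13) (K := 32) (by norm_num) (by norm_num) (by norm_num) (by norm_num)
    (by norm_num) (by norm_num) c20
  exact_mod_cast h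

theorem c21 : Nat.ble 7097386 (total (flds 18 13 262144 5505024 ps) 13 5505024 20000000000 32) = true := by
  decide +kernel

theorem b21 : (7097386 : ℝ) / 10000000000 ≤ ∑ n ∈ Finset.range 262144, G (5505024 + n) := by
  have h := seg_bound' (M := 18) (t := 13) (K := 32) (by norm_num) (by norm_num) (by norm_num) (by norm_num)
    (by norm_num) (by norm_num) c21
  exact_mod_cast h

theorem d21 : (14618956 : ℝ) / 10000000000 ≤ ∑ n ∈ Finset.range 524288, G (5242880 + n) := by
  have h := join b20 b21
  norm_num at h ⊢
  exact h

theorem c22 : Nat.ble 6784447 (total (flds 18 13 262144 5767168 ps) 13 5767168 20000000000 32) = true := by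
  decide +kernel

theorem b22 : (6784447 : ℝ) / 10000000000 ≤ ∑ n ∈ Finset.range 262144, G (5767168 + n) := by
  have h := seg_bound' (M := 18) (t := 13) (K := 32) (by norm_num) (by norm_num) (by norm_num) (by norm_num)
    (by norm_num) (by norm_num) c22
  exact_mod_cast h

theorem d22 : (21403403 : ℝ) / 10000000000 ≤ ∑ n ∈ Finset.range 786432, G (5242880 + n) := by
  have h := join d21 b22
  norm_num at h ⊢
  exact h

theorem c23 : Nat.ble 6413468 (total (flds 18 13 262144 6029312 ps) 13 6029312 20000000000 32) = true := by
  decide +kernel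

theorem b23 : (6413468 : ℝ) / 10000000000 ≤ ∑ n ∈ Finset.range 262144, G (6029312 + n) := by
  have h := seg_bound' (M := 18) (t := 13) (K := 32) (by norm_num) (by norm_num) (by norm_num) (by norm_num)
    (by norm_num) (by norm_num) c23
  exact_mod_cast h

theorem d23 : (27816871 : ℝ) / 10000000000 ≤ ∑ n ∈ Finset.range 1048576, G (5242880 + n) := by
  have h := join d22 b23
  norm_num at h ⊢
  exact h

theorem c24 : Nat.ble 6231321 (total (flds 18 13 262144 6291456 ps) 13 6291456 20000000000 32) = true := by
  decide +kernel

theorem b24 : (6231321 : ℝ) / 10000000000 ≤ ∑ n ∈ Finset.range 262144, G (6291456 + n) := by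
  have h := seg_bound' (M := 18) (t := 13) (K := 32) (by norm_num) (by norm_num) (by norm_num) (by norm_num)
    (by norm_num) (by norm_num) c24
  exact_mod_cast h

theorem d24 : (34048192 : ℝ) / 10000000000 ≤ ∑ n ∈ Finset.range 1310720, G (5242880 + n) := by
  have h := join d23 b24
  norm_num at h ⊢
  exact h

theorem c25 : Nat.ble 5905136 (total (flds 18 13 262144 6553600 ps) 13 6553600 20000000000 32) = true := by
  decide +kernel

theorem b25 : (5905136 : ℝ) / 10000000000 ≤ ∑ n ∈ Finset.range 262144, G (6553600 + n) := by
  have h := seg_bound' (M := 18) (t := 13) (K := 32) (by norm_num) (by norm_num) (by norm_num) (by norm_num)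
    (by norm_num) (by norm_num) c25
  exact_mod_cast h

theorem d25 : (39953328 : ℝ) / 10000000000 ≤ ∑ n ∈ Finset.range 1572864, G (5242880 + n) := by
  have h := join d24 b25
  norm_num at h ⊢
  exact h

theorem c26 : Nat.ble 5604362 (total (flds 18 13 262144 6815744 ps) 13 6815744 20000000000 32) = true := by
  decide +kernel

theorem b26 : (5604362 : ℝ) / 10000000000 ≤ ∑ n ∈ Finset.range 262144, G (6815744 + n) := by
  have h := seg_bound' (M := 18) (t := 13) (K := 32) (by norm_num) (by norm_num) (by norm_num) (by norm_num)
    (by norm_num) (by norm_num) c26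
  exact_mod_cast h

theorem d26 : (45557690 : ℝ) / 10000000000 ≤ ∑ n ∈ Finset.range 1835008, G (5242880 + n) := by
  have h := join d25 b26
  norm_num at h ⊢
  exact h

theorem c27 : Nat.ble 5443627 (total (flds 18 13 262144 7077888 ps) 13 7077888 20000000000 32) = true := by
  decide +kernel

theorem b27 : (5443627 : ℝ) / 10000000000 ≤ ∑ n ∈ Finset.range 262144, G (7077888 + n) := by
  have h := seg_bound' (M := 18) (t := 13) (K := 32) (by norm_num) (by norm_num) (by norm_num) (by norm_num)
    (by norm_num) (by norm_num) c27
  exact_mod_cast h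

theorem d27 : (51001317 : ℝ) / 10000000000 ≤ ∑ n ∈ Finset.range 2097152, G (5242880 + n) := by
  have h := join d26 b27
  norm_num at h ⊢
  exact h

end Pool.Agent.V11300.G6
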