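import Pool.Agent.V11300.KS.Complete

set_option autoImplicit false
set_option maxRecDepth 100000

namespace Pool.Agent.V11300.G6

open Pool.Agent.V11300.KSW

theorem c28 : Nat.ble 5300166 (total (flds 18 13 262144 7340032 ps) 13 7340032 20000000000 32) = true := by
  decide +kernel

theorem b28 : (5300166 : ℝ) / 10000000000 ≤ ∑ n ∈ Finset.range 262144, G (7340032 + n) := by
  have h := seg_bound' (M := 18) (t := 13) (K := 32) (by norm_num) (by norm_num) (by norm_num) (by norm_num)
    (by norm_num) (by norm_num) c28
  exact_mod_cast h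

theorem c29 : Nat.ble 5038476 (total (flds 18 13 262144 7602176 ps) 13 7602176 20000000000 32) = true := by
  decide +kernel

theorem b29 : (5038476 : ℝ) / 10000000000 ≤ ∑ n ∈ Finset.range 262144, G (7602176 + n) := by
  have h := seg_bound' (M := 18) (t := 13) (K := 32) (by norm_num) (by norm_num) (by norm_num) (by norm_num)
    (by norm_num) (by norm_num) c29
  exact_mod_cast h

theorem d29 : (10338642 : ℝ) / 10000000000 ≤ ∑ n ∈ Finset.range 524288, G (7340032 + n) := by
  have h := join b28 b29
  norm_num at h ⊢
  exact h

theorem c30 : Nat.ble 4840753 (total (flds 18 13 262144 7864320 ps) 13 7864320 20000000000 32) = true := by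
  decide +kernel

theorem b30 : (4840753 : ℝ) / 10000000000 ≤ ∑ n ∈ Finset.range 262144, G (7864320 + n) := by
  have h := seg_bound' (M := 18) (t := 13) (K := 32) (by norm_num) (by norm_num) (by norm_num) (by norm_num)
    (by norm_num) (by norm_num) c30
  exact_mod_cast h

theorem d30 : (15179395 : ℝ) / 10000000000 ≤ ∑ n ∈ Finset.range 786432, G (7340032 + n) := by
  have h := join d29 b30
  norm_num at h ⊢
  exact h

theorem c31 : Nat.ble 4688706 (total (flds 18 13 262144 8126464 ps) 13 8126464 20000000000 32) = true := by
  decide +kernel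

theorem b31 : (4688706 : ℝ) / 10000000000 ≤ ∑ n ∈ Finset.range 262144, G (8126464 + n) := by
  have h := seg_bound' (M := 18) (t := 13) (K := 32) (by norm_num) (by norm_num) (by norm_num) (by norm_num)
    (by norm_num) (by norm_num) c31
  exact_mod_cast h

theorem d31 : (19868101 : ℝ) / 10000000000 ≤ ∑ n ∈ Finset.range 1048576, G (7340032 + n) := by
  have h := join d30 b31
  norm_num at h ⊢
  exact h

theorem c32 : Nat.ble 4578172 (total (flds 18 13 262144 8388608 ps) 13 8388608 20000000000 32) = true := by
  decide +kernel

theorem b32 : (4578172 : ℝ) / 10000000000 ≤ ∑ n ∈ Finset.range 262144, G (8388608 + n) := by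
  have h := seg_bound' (M := 18) (t := 13) (K := 32) (by norm_num) (by norm_num) (by norm_num) (by norm_num)
    (by norm_num) (by norm_num) c32
  exact_mod_cast h

theorem d32 : (24446273 : ℝ) / 10000000000 ≤ ∑ n ∈ Finset.range 1310720, G (7340032 + n) := by
  have h := join d31 b32
  norm_num at h ⊢
  exact h

theorem c33 : Nat.ble 4349189 (total (flds 18 13 262144 8650752 ps) 13 8650752 20000000000 32) = true := by
  decide +kernel

theorem b33 : (4349189 : ℝ) / 10000000000 ≤ ∑ n ∈ Finset.range 262144, G (8650752 + n) := by
  have h := seg_bound' (M := 18) (t := 13) (K := 32) (by norm_num) (by norm_num) (by norm_num) (by norm_num)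
    (by norm_num) (by norm_num) c33
  exact_mod_cast h

theorem d33 : (28795462 : ℝ) / 10000000000 ≤ ∑ n ∈ Finset.range 1572864, G (7340032 + n) := by
  have h := join d32 b33
  norm_num at h ⊢
  exact h

theorem c34 : Nat.ble 4180286 (total (flds 18 13 262144 8912896 ps) 13 8912896 20000000000 32) = true := by
  decide +kernel

theorem b34 : (4180286 : ℝ) / 10000000000 ≤ ∑ n ∈ Finset.range 262144, G (8912896 + n) := by
  have h := seg_bound' (M := 18) (t := 13) (K := 32) (by norm_num) (by norm_num) (by norm_num) (by norm_num)
    (by norm_num) (by norm_num) c34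
  exact_mod_cast h

theorem d34 : (32975748 : ℝ) / 10000000000 ≤ ∑ n ∈ Finset.range 1835008, G (7340032 + n) := by
  have h := join d33 b34
  norm_num at h ⊢
  exact h

theorem c35 : Nat.ble 4101956 (total (flds 18 13 262144 9175040 ps) 13 9175040 20000000000 32) = true := by
  decide +kernel

theorem b35 : (4101956 : ℝ) / 10000000000 ≤ ∑ n ∈ Finset.range 262144, G (9175040 + n) := by
  have h := seg_bound' (M := 18) (t := 13) (K := 32) (by norm_num) (by norm_num) (by norm_num) (by norm_num)
    (by norm_num) (by norm_num) c35
  exact_mod_cast h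

theorem d35 : (37077704 : ℝ) / 10000000000 ≤ ∑ n ∈ Finset.range 2097152, G (7340032 + n) := by
  have h := join d34 b35
  norm_num at h ⊢
  exact h

end Pool.Agent.V11300.G6
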