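import Pool.Agent.V11300.KS.Complete

set_option autoImplicit false
set_option maxRecDepth 100000

namespace Pool.Agent.V11300.G6

open Pool.Agent.V11300.KSW

theorem c36 : Nat.ble 3995179 (total (flds 18 13 262144 9437184 ps) 13 9437184 20000000000 32) = true := by
  decide +kernel

theorem b36 : (3995179 : ℝ) / 10000000000 ≤ ∑ n ∈ Finset.range 262144, G (9437184 + n) := by
  have h := seg_bound' (M := 18) (t := 13) (K := 32) (by norm_num) (by norm_num) (by norm_num) (by norm_num)
    (by norm_num) (by norm_num) c36
  exact_mod_cast h

theorem c37 : Nat.ble 3902695 (total (flds 18 13 262144 9699328 ps) 13 9699328 20000000000 32) = true := by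
  decide +kernel

theorem b37 : (3902695 : ℝ) / 10000000000 ≤ ∑ n ∈ Finset.range 262144, G (9699328 + n) := by
  have h := seg_bound' (M := 18) (t := 13) (K := 32) (by norm_num) (by norm_num) (by norm_num) (by norm_num)
    (by norm_num) (by norm_num) c37
  exact_mod_cast h

theorem d37 : (7897874 : ℝ) / 10000000000 ≤ ∑ n ∈ Finset.range 524288, G (9437184 + n) := by
  have h := join b36 b37
  norm_num at h ⊢
  exact h

theorem c38 : Nat.ble 3766248 (total (flds 18 13 262144 9961472 ps) 13 9961472 20000000000 32) = true := by
  decide +kernel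

theorem b38 : (3766248 : ℝ) / 10000000000 ≤ ∑ n ∈ Finset.range 262144, G (9961472 + n) := by
  have h := seg_bound' (M := 18) (t := 13) (K := 32) (by norm_num) (by norm_num) (by norm_num) (by norm_num)
    (by norm_num) (by norm_num) c38
  exact_mod_cast h

theorem d38 : (11664122 : ℝ) / 10000000000 ≤ ∑ n ∈ Finset.range 786432, G (9437184 + n) := by
  have h := join d37 b38
  norm_num at h ⊢
  exact h

theorem c39 : Nat.ble 3671912 (total (flds 18 13 262144 10223616 ps) 13 10223616 20000000000 32) = true := by
  decide +kernel

theorem b39 : (3671912 : ℝ) / 10000000000 ≤ ∑ n ∈ Finset.range 262144, G (10223616 + n) := by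
  have h := seg_bound' (M := 18) (t := 13) (K := 32) (by norm_num) (by norm_num) (by norm_num) (by norm_num)
    (by norm_num) (by norm_num) c39
  exact_mod_cast h

theorem d39 : (15336034 : ℝ) / 10000000000 ≤ ∑ n ∈ Finset.range 1048576, G (9437184 + n) := by
  have h := join d38 b39
  norm_num at h ⊢
  exact h

theorem c40 : Nat.ble 3528886 (total (flds 18 13 262144 10485760 ps) 13 10485760 20000000000 32) = true := by
  decide +kernel

theorem b40 : (3528886 : ℝ) / 10000000000 ≤ ∑ n ∈ Finset.range 262144, G (10485760 + n) := by
  have h := seg_bound' (M := 18) (t := 13) (K := 32) (by norm_num) (by norm_num) (by norm_num) (by norm_num)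
    (by norm_num) (by norm_num) c40
  exact_mod_cast h

theorem d40 : (18864920 : ℝ) / 10000000000 ≤ ∑ n ∈ Finset.range 1310720, G (9437184 + n) := by
  have h := join d39 b40
  norm_num at h ⊢
  exact h

theorem c41 : Nat.ble 3436649 (total (flds 18 13 262144 10747904 ps) 13 10747904 20000000000 32) = true := by
  decide +kernel

theorem b41 : (3436649 : ℝ) / 10000000000 ≤ ∑ n ∈ Finset.range 262144, G (10747904 + n) := by
  have h := seg_bound' (M := 18) (t := 13) (K := 32) (by norm_num) (by norm_num) (by norm_num) (by norm_num)
    (by norm_num) (by norm_num) c41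
  exact_mod_cast h

theorem d41 : (22301569 : ℝ) / 10000000000 ≤ ∑ n ∈ Finset.range 1572864, G (9437184 + n) := by
  have h := join d40 b41
  norm_num at h ⊢
  exact h

theorem c42 : Nat.ble 3379400 (total (flds 18 13 262144 11010048 ps) 13 11010048 20000000000 32) = true := by
  decide +kernel

theorem b42 : (3379400 : ℝ) / 10000000000 ≤ ∑ n ∈ Finset.range 262144, G (11010048 + n) := by
  have h := seg_bound' (M := 18) (t := 13) (K := 32) (by norm_num) (by norm_num) (by norm_num) (by norm_num)
    (by norm_num) (by norm_num) c42
  exact_mod_cast h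

theorem d42 : (25680969 : ℝ) / 10000000000 ≤ ∑ n ∈ Finset.range 1835008, G (9437184 + n) := by
  have h := join d41 b42
  norm_num at h ⊢
  exact h

theorem c43 : Nat.ble 3240766 (total (flds 18 13 262144 11272192 ps) 13 11272192 20000000000 32) = true := by
  decide +kernel

theorem b43 : (3240766 : ℝ) / 10000000000 ≤ ∑ n ∈ Finset.range 262144, G (11272192 + n) := by
  have h := seg_bound' (M := 18) (t := 13) (K := 32) (by norm_num) (by norm_num) (by norm_num) (by norm_num)
    (by norm_num) (by norm_num) c43
  exact_mod_cast h

theorem d43 : (28921735 : ℝ) / 10000000000 ≤ ∑ n ∈ Finset.range 2097152, G (9437184 + n) := by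
  have h := join d42 b43
  norm_num at h ⊢
  exact h

end Pool.Agent.V11300.G6
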