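import Pool.Agent.V11300.KS.Complete

set_option autoImplicit false
set_option maxRecDepth 100000

namespace Pool.Agent.V11300.G6

open Pool.Agent.V11300.KSW

theorem c44 : Nat.ble 3157708 (total (flds 18 13 262144 11534336 ps) 13 11534336 20000000000 32) = true := by
  decide +kernel

theorem b44 : (3157708 : ℝ) / 10000000000 ≤ ∑ n ∈ Finset.range 262144, G (11534336 + n) := by
  have h := seg_bound' (M := 18) (t := 13) (K := 32) (by norm_num) (by norm_num) (by norm_num) (by norm_num)
    (by norm_num) (by norm_num) c44
  exact_mod_cast h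

theorem c45 : Nat.ble 3180287 (total (flds 18 13 262144 11796480 ps) 13 11796480 20000000000 32) = true := by
  decide +kernel

theorem b45 : (3180287 : ℝ) / 10000000000 ≤ ∑ n ∈ Finset.range 262144, G (11796480 + n) := by
  have h := seg_bound' (M := 18) (t := 13) (K := 32) (by norm_num) (by norm_num) (by norm_num) (by norm_num)
    (by norm_num) (by norm_num) c45
  exact_mod_cast h

theorem d45 : (6337995 : ℝ) / 10000000000 ≤ ∑ n ∈ Finset.range 524288, G (11534336 + n) := by
  have h := join b44 b45
  norm_num at h ⊢
  exact h

theorem c46 : Nat.ble 3069107 (total (flds 18 13 262144 12058624 ps) 13 12058624 20000000000 32) = true := by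
  decide +kernel

theorem b46 : (3069107 : ℝ) / 10000000000 ≤ ∑ n ∈ Finset.range 262144, G (12058624 + n) := by
  have h := seg_bound' (M := 18) (t := 13) (K := 32) (by norm_num) (by norm_num) (by norm_num) (by norm_num)
    (by norm_num) (by norm_num) c46
  exact_mod_cast h

theorem d46 : (9407102 : ℝ) / 10000000000 ≤ ∑ n ∈ Finset.range 786432, G (11534336 + n) := by
  have h := join d45 b46
  norm_num at h ⊢
  exact h

theorem c47 : Nat.ble 3002819 (total (flds 18 13 262144 12320768 ps) 13 12320768 20000000000 32) = true := by
  decide +kernel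

theorem b47 : (3002819 : ℝ) / 10000000000 ≤ ∑ n ∈ Finset.range 262144, G (12320768 + n) := by
  have h := seg_bound' (M := 18) (t := 13) (K := 32) (by norm_num) (by norm_num) (by norm_num) (by norm_num)
    (by norm_num) (by norm_num) c47
  exact_mod_cast h

theorem d47 : (12409921 : ℝ) / 10000000000 ≤ ∑ n ∈ Finset.range 1048576, G (11534336 + n) := by
  have h := join d46 b47
  norm_num at h ⊢
  exact h

theorem c48 : Nat.ble 2910301 (total (flds 18 13 262144 12582912 ps) 13 12582912 20000000000 32) = true := by
  decide +kernel

theorem b48 : (2910301 : ℝ) / 10000000000 ≤ ∑ n ∈ Finset.range 262144, G (12582912 + n) := by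
  have h := seg_bound' (M := 18) (t := 13) (K := 32) (by norm_num) (by norm_num) (by norm_num) (by norm_num)
    (by norm_num) (by norm_num) c48
  exact_mod_cast h

theorem d48 : (15320222 : ℝ) / 10000000000 ≤ ∑ n ∈ Finset.range 1310720, G (11534336 + n) := by
  have h := join d47 b48
  norm_num at h ⊢
  exact h

theorem c49 : Nat.ble 2811480 (total (flds 18 13 262144 12845056 ps) 13 12845056 20000000000 32) = true := by
  decide +kernel

theorem b49 : (2811480 : ℝ) / 10000000000 ≤ ∑ n ∈ Finset.range 262144, G (12845056 + n) := by
  have h := seg_bound' (M := 18) (t := 13) (K := 32) (by norm_num) (by norm_num) (by norm_num) (by norm_num)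
    (by norm_num) (by norm_num) c49
  exact_mod_cast h

theorem d49 : (18131702 : ℝ) / 10000000000 ≤ ∑ n ∈ Finset.range 1572864, G (11534336 + n) := by
  have h := join d48 b49
  norm_num at h ⊢
  exact h

theorem c50 : Nat.ble 2789019 (total (flds 18 13 262144 13107200 ps) 13 13107200 20000000000 32) = true := by
  decide +kernel

theorem b50 : (2789019 : ℝ) / 10000000000 ≤ ∑ n ∈ Finset.range 262144, G (13107200 + n) := by
  have h := seg_bound' (M := 18) (t := 13) (K := 32) (by norm_num) (by norm_num) (by norm_num) (by norm_num)
    (by norm_num) (by norm_num) c50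
  exact_mod_cast h

theorem d50 : (20920721 : ℝ) / 10000000000 ≤ ∑ n ∈ Finset.range 1835008, G (11534336 + n) := by
  have h := join d49 b50
  norm_num at h ⊢
  exact h

theorem c51 : Nat.ble 2720017 (total (flds 18 13 262144 13369344 ps) 13 13369344 20000000000 32) = true := by
  decide +kernel

theorem b51 : (2720017 : ℝ) / 10000000000 ≤ ∑ n ∈ Finset.range 262144, G (13369344 + n) := by
  have h := seg_bound' (M := 18) (t := 13) (K := 32) (by norm_num) (by norm_num) (by norm_num) (by norm_num)
    (by norm_num) (by norm_num) c51
  exact_mod_cast h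

theorem d51 : (23640738 : ℝ) / 10000000000 ≤ ∑ n ∈ Finset.range 2097152, G (11534336 + n) := by
  have h := join d50 b51
  norm_num at h ⊢
  exact h

end Pool.Agent.V11300.G6
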