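import Pool.Agent.V11300.KS.Complete

set_option autoImplicit false
set_option maxRecDepth 100000

namespace Pool.Agent.V11300.G6

open Pool.Agent.V11300.KSW

theorem c52 : Nat.ble 2657188 (total (flds 18 13 262144 13631488 ps) 13 13631488 20000000000 32) = true := by
  decide +kernel

theorem b52 : (2657188 : ℝ) / 10000000000 ≤ ∑ n ∈ Finset.range 262144, G (13631488 + n) := by
  have h := seg_bound' (M := 18) (t := 13) (K := 32) (by norm_num) (by norm_num) (by norm_num) (by norm_num)
    (by norm_num) (by norm_num) c52
  exact_mod_cast h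

theorem c53 : Nat.ble 2622386 (total (flds 18 13 262144 13893632 ps) 13 13893632 20000000000 32) = true := by
  decide +kernel

theorem b53 : (2622386 : ℝ) / 10000000000 ≤ ∑ n ∈ Finset.range 262144, G (13893632 + n) := by
  have h := seg_bound' (M := 18) (t := 13) (K := 32) (by norm_num) (by norm_num) (by norm_num) (by norm_num)
    (by norm_num) (by norm_num) c53
  exact_mod_cast h

theorem d53 : (5279574 : ℝ) / 10000000000 ≤ ∑ n ∈ Finset.range 524288, G (13631488 + n) := by
  have h := join b52 b53
  norm_num at h ⊢
  exact h

theorem c54 : Nat.ble 2592825 (total (flds 18 13 262144 14155776 ps) 13 14155776 20000000000 32) = true := by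
  decide +kernel

theorem b54 : (2592825 : ℝ) / 10000000000 ≤ ∑ n ∈ Finset.range 262144, G (14155776 + n) := by
  have h := seg_bound' (M := 18) (t := 13) (K := 32) (by norm_num) (by norm_num) (by norm_num) (by norm_num)
    (by norm_num) (by norm_num) c54
  exact_mod_cast h

theorem d54 : (7872399 : ℝ) / 10000000000 ≤ ∑ n ∈ Finset.range 786432, G (13631488 + n) := by
  have h := join d53 b54
  norm_num at h ⊢
  exact h

theorem c55 : Nat.ble 2507542 (total (flds 18 13 262144 14417920 ps) 13 14417920 20000000000 32) = true := by
  decide +kernel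

theorem b55 : (2507542 : ℝ) / 10000000000 ≤ ∑ n ∈ Finset.range 262144, G (14417920 + n) := by
  have h := seg_bound' (M := 18) (t := 13) (K := 32) (by norm_num) (by norm_num) (by norm_num) (by norm_num)
    (by norm_num) (by norm_num) c55
  exact_mod_cast h

theorem d55 : (10379941 : ℝ) / 10000000000 ≤ ∑ n ∈ Finset.range 1048576, G (13631488 + n) := by
  have h := join d54 b55
  norm_num at h ⊢
  exact h

theorem c56 : Nat.ble 2446213 (total (flds 18 13 262144 14680064 ps) 13 14680064 20000000000 32) = true := by
  decide +kernel

theorem b56 : (2446213 : ℝ) / 10000000000 ≤ ∑ n ∈ Finset.range 262144, G (14680064 + n) := by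
  have h := seg_bound' (M := 18) (t := 13) (K := 32) (by norm_num) (by norm_num) (by norm_num) (by norm_num)
    (by norm_num) (by norm_num) c56
  exact_mod_cast h

theorem d56 : (12826154 : ℝ) / 10000000000 ≤ ∑ n ∈ Finset.range 1310720, G (13631488 + n) := by
  have h := join d55 b56
  norm_num at h ⊢
  exact h

theorem c57 : Nat.ble 2422031 (total (flds 18 13 262144 14942208 ps) 13 14942208 20000000000 32) = true := by
  decide +kernel

theorem b57 : (2422031 : ℝ) / 10000000000 ≤ ∑ n ∈ Finset.range 262144, G (14942208 + n) := by
  have h := seg_bound' (M := 18) (t := 13) (K := 32) (by norm_num) (by norm_num) (by norm_num) (by norm_num)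
    (by norm_num) (by norm_num) c57
  exact_mod_cast h

theorem d57 : (15248185 : ℝ) / 10000000000 ≤ ∑ n ∈ Finset.range 1572864, G (13631488 + n) := by
  have h := join d56 b57
  norm_num at h ⊢
  exact h

theorem c58 : Nat.ble 2395037 (total (flds 18 13 262144 15204352 ps) 13 15204352 20000000000 32) = true := by
  decide +kernel

theorem b58 : (2395037 : ℝ) / 10000000000 ≤ ∑ n ∈ Finset.range 262144, G (15204352 + n) := by
  have h := seg_bound' (M := 18) (t := 13) (K := 32) (by norm_num) (by norm_num) (by norm_num) (by norm_num)
    (by norm_num) (by norm_num) c58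
  exact_mod_cast h

theorem d58 : (17643222 : ℝ) / 10000000000 ≤ ∑ n ∈ Finset.range 1835008, G (13631488 + n) := by
  have h := join d57 b58
  norm_num at h ⊢
  exact h

theorem c59 : Nat.ble 2327273 (total (flds 18 13 262144 15466496 ps) 13 15466496 20000000000 32) = true := by
  decide +kernel

theorem b59 : (2327273 : ℝ) / 10000000000 ≤ ∑ n ∈ Finset.range 262144, G (15466496 + n) := by
  have h := seg_bound' (M := 18) (t := 13) (K := 32) (by norm_num) (by norm_num) (by norm_num) (by norm_num)
    (by norm_num) (by norm_num) c59
  exact_mod_cast h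

theorem d59 : (19970495 : ℝ) / 10000000000 ≤ ∑ n ∈ Finset.range 2097152, G (13631488 + n) := by
  have h := join d58 b59
  norm_num at h ⊢
  exact h

end Pool.Agent.V11300.G6
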