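import Pool.Agent.V11300.KS.Complete

set_option autoImplicit false
set_option maxRecDepth 100000

namespace Pool.Agent.V11300.G6

open Pool.Agent.V11300.KSW

theorem c60 : Nat.ble 2291117 (total (flds 18 13 262144 15728640 ps) 13 15728640 20000000000 32) = true := by
  decide +kernel

theorem b60 : (2291117 : ℝ) / 10000000000 ≤ ∑ n ∈ Finset.range 262144, G (15728640 + n) := by
  have h := seg_bound' (M := 18) (t := 13) (K := 32) (by norm_num) (by norm_num) (by norm_num) (by norm_num)
    (by norm_num) (by norm_num) c60
  exact_mod_cast h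

theorem c61 : Nat.ble 2211976 (total (flds 18 13 262144 15990784 ps) 13 15990784 20000000000 32) = true := by
  decide +kernel

theorem b61 : (2211976 : ℝ) / 10000000000 ≤ ∑ n ∈ Finset.range 262144, G (15990784 + n) := by
  have h := seg_bound' (M := 18) (t := 13) (K := 32) (by norm_num) (by norm_num) (by norm_num) (by norm_num)
    (by norm_num) (by norm_num) c61
  exact_mod_cast h

theorem d61 : (4503093 : ℝ) / 10000000000 ≤ ∑ n ∈ Finset.range 524288, G (15728640 + n) := by
  have h := join b60 b61
  norm_num at h ⊢
  exact h

theorem c62 : Nat.ble 2182714 (total (flds 18 13 262144 16252928 ps) 13 16252928 20000000000 32) = true := by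
  decide +kernel

theorem b62 : (2182714 : ℝ) / 10000000000 ≤ ∑ n ∈ Finset.range 262144, G (16252928 + n) := by
  have h := seg_bound' (M := 18) (t := 13) (K := 32) (by norm_num) (by norm_num) (by norm_num) (by norm_num)
    (by norm_num) (by norm_num) c62
  exact_mod_cast h

theorem d62 : (6685807 : ℝ) / 10000000000 ≤ ∑ n ∈ Finset.range 786432, G (15728640 + n) := by
  have h := join d61 b62
  norm_num at h ⊢
  exact h

theorem c63 : Nat.ble 2146446 (total (flds 18 13 262144 16515072 ps) 13 16515072 20000000000 32) = true := by
  decide +kernel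

theorem b63 : (2146446 : ℝ) / 10000000000 ≤ ∑ n ∈ Finset.range 262144, G (16515072 + n) := by
  have h := seg_bound' (M := 18) (t := 13) (K := 32) (by norm_num) (by norm_num) (by norm_num) (by norm_num)
    (by norm_num) (by norm_num) c63
  exact_mod_cast h

theorem d63 : (8832253 : ℝ) / 10000000000 ≤ ∑ n ∈ Finset.range 1048576, G (15728640 + n) := by
  have h := join d62 b63
  norm_num at h ⊢
  exact h

theorem c64 : Nat.ble 2136043 (total (flds 18 13 262144 16777216 ps) 13 16777216 20000000000 32) = true := by
  decide +kernel

theorem b64 : (2136043 : ℝ) / 10000000000 ≤ ∑ n ∈ Finset.range 262144, G (16777216 + n) := by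
  have h := seg_bound' (M := 18) (t := 13) (K := 32) (by norm_num) (by norm_num) (by norm_num) (by norm_num)
    (by norm_num) (by norm_num) c64
  exact_mod_cast h

theorem d64 : (10968296 : ℝ) / 10000000000 ≤ ∑ n ∈ Finset.range 1310720, G (15728640 + n) := by
  have h := join d63 b64
  norm_num at h ⊢
  exact h

theorem c65 : Nat.ble 2085442 (total (flds 18 13 262144 17039360 ps) 13 17039360 20000000000 32) = true := by
  decide +kernel

theorem b65 : (2085442 : ℝ) / 10000000000 ≤ ∑ n ∈ Finset.range 262144, G (17039360 + n) := by
  have h := seg_bound' (M := 18) (t := 13) (K := 32) (by norm_num) (by norm_num) (by norm_num) (by norm_num)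
    (by norm_num) (by norm_num) c65
  exact_mod_cast h

theorem d65 : (13053738 : ℝ) / 10000000000 ≤ ∑ n ∈ Finset.range 1572864, G (15728640 + n) := by
  have h := join d64 b65
  norm_num at h ⊢
  exact h

theorem c66 : Nat.ble 2063561 (total (flds 18 13 262144 17301504 ps) 13 17301504 20000000000 32) = true := by
  decide +kernel

theorem b66 : (2063561 : ℝ) / 10000000000 ≤ ∑ n ∈ Finset.range 262144, G (17301504 + n) := by
  have h := seg_bound' (M := 18) (t := 13) (K := 32) (by norm_num) (by norm_num) (by norm_num) (by norm_num)
    (by norm_num) (by norm_num) c66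
  exact_mod_cast h

theorem d66 : (15117299 : ℝ) / 10000000000 ≤ ∑ n ∈ Finset.range 1835008, G (15728640 + n) := by
  have h := join d65 b66
  norm_num at h ⊢
  exact h

theorem c67 : Nat.ble 2017813 (total (flds 18 13 262144 17563648 ps) 13 17563648 20000000000 32) = true := by
  decide +kernel

theorem b67 : (2017813 : ℝ) / 10000000000 ≤ ∑ n ∈ Finset.range 262144, G (17563648 + n) := by
  have h := seg_bound' (M := 18) (t := 13) (K := 32) (by norm_num) (by norm_num) (by norm_num) (by norm_num)
    (by norm_num) (by norm_num) c67
  exact_mod_cast h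

theorem d67 : (17135112 : ℝ) / 10000000000 ≤ ∑ n ∈ Finset.range 2097152, G (15728640 + n) := by
  have h := join d66 b67
  norm_num at h ⊢
  exact h

end Pool.Agent.V11300.G6
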