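import Pool.Agent.V11300.KS.Complete

set_option autoImplicit false
set_option maxRecDepth 100000

namespace Pool.Agent.V11300.G6

open Pool.Agent.V11300.KSW

theorem c68 : Nat.ble 2009035 (total (flds 18 13 262144 17825792 ps) 13 17825792 20000000000 32) = true := by
  decide +kernel

theorem b68 : (2009035 : ℝ) / 10000000000 ≤ ∑ n ∈ Finset.range 262144, G (17825792 + n) := by
  have h := seg_bound' (M := 18) (t := 13) (K := 32) (by norm_num) (by norm_num) (by norm_num) (by norm_num)
    (by norm_num) (by norm_num) c68
  exact_mod_cast h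

theorem c69 : Nat.ble 1957779 (total (flds 18 13 262144 18087936 ps) 13 18087936 20000000000 32) = true := by
  decide +kernel

theorem b69 : (1957779 : ℝ) / 10000000000 ≤ ∑ n ∈ Finset.range 262144, G (18087936 + n) := by
  have h := seg_bound' (M := 18) (t := 13) (K := 32) (by norm_num) (by norm_num) (by norm_num) (by norm_num)
    (by norm_num) (by norm_num) c69
  exact_mod_cast h

theorem d69 : (3966814 : ℝ) / 10000000000 ≤ ∑ n ∈ Finset.range 524288, G (17825792 + n) := by
  have h := join b68 b69
  norm_num at h ⊢
  exact h

theorem c70 : Nat.ble 1926917 (total (flds 18 13 262144 18350080 ps) 13 18350080 20000000000 32) = true := by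
  decide +kernel

theorem b70 : (1926917 : ℝ) / 10000000000 ≤ ∑ n ∈ Finset.range 262144, G (18350080 + n) := by
  have h := seg_bound' (M := 18) (t := 13) (K := 32) (by norm_num) (by norm_num) (by norm_num) (by norm_num)
    (by norm_num) (by norm_num) c70
  exact_mod_cast h

theorem d70 : (5893731 : ℝ) / 10000000000 ≤ ∑ n ∈ Finset.range 786432, G (17825792 + n) := by
  have h := join d69 b70
  norm_num at h ⊢
  exact h

theorem c71 : Nat.ble 1900846 (total (flds 18 13 262144 18612224 ps) 13 18612224 20000000000 32) = true := by
  decide +kernel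

theorem b71 : (1900846 : ℝ) / 10000000000 ≤ ∑ n ∈ Finset.range 262144, G (18612224 + n) := by
  have h := seg_bound' (M := 18) (t := 13) (K := 32) (by norm_num) (by norm_num) (by norm_num) (by norm_num)
    (by norm_num) (by norm_num) c71
  exact_mod_cast h

theorem d71 : (7794577 : ℝ) / 10000000000 ≤ ∑ n ∈ Finset.range 1048576, G (17825792 + n) := by
  have h := join d70 b71
  norm_num at h ⊢
  exact h

theorem c72 : Nat.ble 1862089 (total (flds 18 13 262144 18874368 ps) 13 18874368 20000000000 32) = true := by
  decide +kernel

theorem b72 : (1862089 : ℝ) / 10000000000 ≤ ∑ n ∈ Finset.range 262144, G (18874368 + n) := by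
  have h := seg_bound' (M := 18) (t := 13) (K := 32) (by norm_num) (by norm_num) (by norm_num) (by norm_num)
    (by norm_num) (by norm_num) c72
  exact_mod_cast h

theorem d72 : (9656666 : ℝ) / 10000000000 ≤ ∑ n ∈ Finset.range 1310720, G (17825792 + n) := by
  have h := join d71 b72
  norm_num at h ⊢
  exact h

theorem c73 : Nat.ble 1824255 (total (flds 18 13 262144 19136512 ps) 13 19136512 20000000000 32) = true := by
  decide +kernel

theorem b73 : (1824255 : ℝ) / 10000000000 ≤ ∑ n ∈ Finset.range 262144, G (19136512 + n) := by
  have h := seg_bound' (M := 18) (t := 13) (K := 32) (by norm_num) (by norm_num) (by norm_num) (by norm_num)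
    (by norm_num) (by norm_num) c73
  exact_mod_cast h

theorem d73 : (11480921 : ℝ) / 10000000000 ≤ ∑ n ∈ Finset.range 1572864, G (17825792 + n) := by
  have h := join d72 b73
  norm_num at h ⊢
  exact h

theorem c74 : Nat.ble 1835342 (total (flds 18 13 262144 19398656 ps) 13 19398656 20000000000 32) = true := by
  decide +kernel

theorem b74 : (1835342 : ℝ) / 10000000000 ≤ ∑ n ∈ Finset.range 262144, G (19398656 + n) := by
  have h := seg_bound' (M := 18) (t := 13) (K := 32) (by norm_num) (by norm_num) (by norm_num) (by norm_num)
    (by norm_num) (by norm_num) c74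
  exact_mod_cast h

theorem d74 : (13316263 : ℝ) / 10000000000 ≤ ∑ n ∈ Finset.range 1835008, G (17825792 + n) := by
  have h := join d73 b74
  norm_num at h ⊢
  exact h

theorem c75 : Nat.ble 1788240 (total (flds 18 13 262144 19660800 ps) 13 19660800 20000000000 32) = true := by
  decide +kernel

theorem b75 : (1788240 : ℝ) / 10000000000 ≤ ∑ n ∈ Finset.range 262144, G (19660800 + n) := by
  have h := seg_bound' (M := 18) (t := 13) (K := 32) (by norm_num) (by norm_num) (by norm_num) (by norm_num)
    (by norm_num) (by norm_num) c75
  exact_mod_cast h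

theorem d75 : (15104503 : ℝ) / 10000000000 ≤ ∑ n ∈ Finset.range 2097152, G (17825792 + n) := by
  have h := join d74 b75
  norm_num at h ⊢
  exact h

end Pool.Agent.V11300.G6
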