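import Pool.Agent.V11300.KS.Complete

set_option autoImplicit false
set_option maxRecDepth 100000

namespace Pool.Agent.V11300.G6

open Pool.Agent.V11300.KSW

theorem c76 : Nat.ble 1747389 (total (flds 18 13 262144 19922944 ps) 13 19922944 20000000000 32) = true := by
  decide +kernel

theorem b76 : (1747389 : ℝ) / 10000000000 ≤ ∑ n ∈ Finset.range 262144, G (19922944 + n) := by
  have h := seg_bound' (M := 18) (t := 13) (K := 32) (by norm_num) (by norm_num) (by norm_num) (by norm_num)
    (by norm_num) (by norm_num) c76
  exact_mod_cast h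

theorem c77 : Nat.ble 1742296 (total (flds 18 13 262144 20185088 ps) 13 20185088 20000000000 32) = true := by
  decide +kernel

theorem b77 : (1742296 : ℝ) / 10000000000 ≤ ∑ n ∈ Finset.range 262144, G (20185088 + n) := by
  have h := seg_bound' (M := 18) (t := 13) (K := 32) (by norm_num) (by norm_num) (by norm_num) (by norm_num)
    (by norm_num) (by norm_num) c77
  exact_mod_cast h

theorem d77 : (3489685 : ℝ) / 10000000000 ≤ ∑ n ∈ Finset.range 524288, G (19922944 + n) := by
  have h := join b76 b77
  norm_num at h ⊢
  exact h

theorem c78 : Nat.ble 1726953 (total (flds 18 13 262144 20447232 ps) 13 20447232 20000000000 32) = true := by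
  decide +kernel

theorem b78 : (1726953 : ℝ) / 10000000000 ≤ ∑ n ∈ Finset.range 262144, G (20447232 + n) := by
  have h := seg_bound' (M := 18) (t := 13) (K := 32) (by norm_num) (by norm_num) (by norm_num) (by norm_num)
    (by norm_num) (by norm_num) c78
  exact_mod_cast h

theorem d78 : (5216638 : ℝ) / 10000000000 ≤ ∑ n ∈ Finset.range 786432, G (19922944 + n) := by
  have h := join d77 b78
  norm_num at h ⊢
  exact h

theorem c79 : Nat.ble 1695921 (total (flds 18 13 262144 20709376 ps) 13 20709376 20000000000 32) = true := by
  decide +kernel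

theorem b79 : (1695921 : ℝ) / 10000000000 ≤ ∑ n ∈ Finset.range 262144, G (20709376 + n) := by
  have h := seg_bound' (M := 18) (t := 13) (K := 32) (by norm_num) (by norm_num) (by norm_num) (by norm_num)
    (by norm_num) (by norm_num) c79
  exact_mod_cast h

theorem d79 : (6912559 : ℝ) / 10000000000 ≤ ∑ n ∈ Finset.range 1048576, G (19922944 + n) := by
  have h := join d78 b79
  norm_num at h ⊢
  exact h

theorem c80 : Nat.ble 1673788 (total (flds 18 13 262144 20971520 ps) 13 20971520 20000000000 32) = true := by
  decide +kernel

theorem b80 : (1673788 : ℝ) / 10000000000 ≤ ∑ n ∈ Finset.range 262144, G (20971520 + n) := by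
  have h := seg_bound' (M := 18) (t := 13) (K := 32) (by norm_num) (by norm_num) (by norm_num) (by norm_num)
    (by norm_num) (by norm_num) c80
  exact_mod_cast h

theorem d80 : (8586347 : ℝ) / 10000000000 ≤ ∑ n ∈ Finset.range 1310720, G (19922944 + n) := by
  have h := join d79 b80
  norm_num at h ⊢
  exact h

theorem c81 : Nat.ble 1651669 (total (flds 18 13 262144 21233664 ps) 13 21233664 20000000000 32) = true := by
  decide +kernel

theorem b81 : (1651669 : ℝ) / 10000000000 ≤ ∑ n ∈ Finset.range 262144, G (21233664 + n) := by
  have h := seg_bound' (M := 18) (t := 13) (K := 32) (by norm_num) (by norm_num) (by norm_num) (by norm_num)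
    (by norm_num) (by norm_num) c81
  exact_mod_cast h

theorem d81 : (10238016 : ℝ) / 10000000000 ≤ ∑ n ∈ Finset.range 1572864, G (19922944 + n) := by
  have h := join d80 b81
  norm_num at h ⊢
  exact h

theorem c82 : Nat.ble 1600779 (total (flds 18 13 262144 21495808 ps) 13 21495808 20000000000 32) = true := by
  decide +kernel

theorem b82 : (1600779 : ℝ) / 10000000000 ≤ ∑ n ∈ Finset.range 262144, G (21495808 + n) := by
  have h := seg_bound' (M := 18) (t := 13) (K := 32) (by norm_num) (by norm_num) (by norm_num) (by norm_num)
    (by norm_num) (by norm_num) c82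
  exact_mod_cast h

theorem d82 : (11838795 : ℝ) / 10000000000 ≤ ∑ n ∈ Finset.range 1835008, G (19922944 + n) := by
  have h := join d81 b82
  norm_num at h ⊢
  exact h

theorem c83 : Nat.ble 1607429 (total (flds 18 13 262144 21757952 ps) 13 21757952 20000000000 32) = true := by
  decide +kernel

theorem b83 : (1607429 : ℝ) / 10000000000 ≤ ∑ n ∈ Finset.range 262144, G (21757952 + n) := by
  have h := seg_bound' (M := 18) (t := 13) (K := 32) (by norm_num) (by norm_num) (by norm_num) (by norm_num)
    (by norm_num) (by norm_num) c83
  exact_mod_cast h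

theorem d83 : (13446224 : ℝ) / 10000000000 ≤ ∑ n ∈ Finset.range 2097152, G (19922944 + n) := by
  have h := join d82 b83
  norm_num at h ⊢
  exact h

end Pool.Agent.V11300.G6
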