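import Pool.Agent.V11300.KS.Complete

set_option autoImplicit false
set_option maxRecDepth 100000

namespace Pool.Agent.V11300.G6

open Pool.Agent.V11300.KSW

theorem c84 : Nat.ble 1572864 (total (flds 18 13 262144 22020096 ps) 13 22020096 20000000000 32) = true := by
  decide +kernel

theorem b84 : (1572864 : ℝ) / 10000000000 ≤ ∑ n ∈ Finset.range 262144, G (22020096 + n) := by
  have h := seg_bound' (M := 18) (t := 13) (K := 32) (by norm_num) (by norm_num) (by norm_num) (by norm_num)
    (by norm_num) (by norm_num) c84
  exact_mod_cast h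

theorem c85 : Nat.ble 1563222 (total (flds 18 13 262144 22282240 ps) 13 22282240 20000000000 32) = true := by
  decide +kernel

theorem b85 : (1563222 : ℝ) / 10000000000 ≤ ∑ n ∈ Finset.range 262144, G (22282240 + n) := by
  have h := seg_bound' (M := 18) (t := 13) (K := 32) (by norm_num) (by norm_num) (by norm_num) (by norm_num)
    (by norm_num) (by norm_num) c85
  exact_mod_cast h

theorem d85 : (3136086 : ℝ) / 10000000000 ≤ ∑ n ∈ Finset.range 524288, G (22020096 + n) := by
  have h := join b84 b85
  norm_num at h ⊢
  exact h

theorem c86 : Nat.ble 1539075 (total (flds 18 13 262144 22544384 ps) 13 22544384 20000000000 32) = true := by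
  decide +kernel

theorem b86 : (1539075 : ℝ) / 10000000000 ≤ ∑ n ∈ Finset.range 262144, G (22544384 + n) := by
  have h := seg_bound' (M := 18) (t := 13) (K := 32) (by norm_num) (by norm_num) (by norm_num) (by norm_num)
    (by norm_num) (by norm_num) c86
  exact_mod_cast h

theorem d86 : (4675161 : ℝ) / 10000000000 ≤ ∑ n ∈ Finset.range 786432, G (22020096 + n) := by
  have h := join d85 b86
  norm_num at h ⊢
  exact h

theorem c87 : Nat.ble 1505595 (total (flds 18 13 262144 22806528 ps) 13 22806528 20000000000 32) = true := by
  decide +kernel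

theorem b87 : (1505595 : ℝ) / 10000000000 ≤ ∑ n ∈ Finset.range 262144, G (22806528 + n) := by
  have h := seg_bound' (M := 18) (t := 13) (K := 32) (by norm_num) (by norm_num) (by norm_num) (by norm_num)
    (by norm_num) (by norm_num) c87
  exact_mod_cast h

theorem d87 : (6180756 : ℝ) / 10000000000 ≤ ∑ n ∈ Finset.range 1048576, G (22020096 + n) := by
  have h := join d86 b87
  norm_num at h ⊢
  exact h

theorem c88 : Nat.ble 1515828 (total (flds 18 13 262144 23068672 ps) 13 23068672 20000000000 32) = true := by
  decide +kernel

theorem b88 : (1515828 : ℝ) / 10000000000 ≤ ∑ n ∈ Finset.range 262144, G (23068672 + n) := by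
  have h := seg_bound' (M := 18) (t := 13) (K := 32) (by norm_num) (by norm_num) (by norm_num) (by norm_num)
    (by norm_num) (by norm_num) c88
  exact_mod_cast h

theorem d88 : (7696584 : ℝ) / 10000000000 ≤ ∑ n ∈ Finset.range 1310720, G (22020096 + n) := by
  have h := join d87 b88
  norm_num at h ⊢
  exact h

theorem c89 : Nat.ble 1473832 (total (flds 18 13 262144 23330816 ps) 13 23330816 20000000000 32) = true := by
  decide +kernel

theorem b89 : (1473832 : ℝ) / 10000000000 ≤ ∑ n ∈ Finset.range 262144, G (23330816 + n) := by
  have h := seg_bound' (M := 18) (t := 13) (K := 32) (by norm_num) (by norm_num) (by norm_num) (by norm_num)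
    (by norm_num) (by norm_num) c89
  exact_mod_cast h

theorem d89 : (9170416 : ℝ) / 10000000000 ≤ ∑ n ∈ Finset.range 1572864, G (22020096 + n) := by
  have h := join d88 b89
  norm_num at h ⊢
  exact h

theorem c90 : Nat.ble 1481926 (total (flds 18 13 262144 23592960 ps) 13 23592960 20000000000 32) = true := by
  decide +kernel

theorem b90 : (1481926 : ℝ) / 10000000000 ≤ ∑ n ∈ Finset.range 262144, G (23592960 + n) := by
  have h := seg_bound' (M := 18) (t := 13) (K := 32) (by norm_num) (by norm_num) (by norm_num) (by norm_num)
    (by norm_num) (by norm_num) c90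
  exact_mod_cast h

theorem d90 : (10652342 : ℝ) / 10000000000 ≤ ∑ n ∈ Finset.range 1835008, G (22020096 + n) := by
  have h := join d89 b90
  norm_num at h ⊢
  exact h

theorem c91 : Nat.ble 1456992 (total (flds 18 13 262144 23855104 ps) 13 23855104 20000000000 32) = true := by
  decide +kernel

theorem b91 : (1456992 : ℝ) / 10000000000 ≤ ∑ n ∈ Finset.range 262144, G (23855104 + n) := by
  have h := seg_bound' (M := 18) (t := 13) (K := 32) (by norm_num) (by norm_num) (by norm_num) (by norm_num)
    (by norm_num) (by norm_num) c91
  exact_mod_cast h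

theorem d91 : (12109334 : ℝ) / 10000000000 ≤ ∑ n ∈ Finset.range 2097152, G (22020096 + n) := by
  have h := join d90 b91
  norm_num at h ⊢
  exact h

end Pool.Agent.V11300.G6
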