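import Pool.Agent.V11300.KS.Complete

set_option autoImplicit false
set_option maxRecDepth 100000

namespace Pool.Agent.V11300.G6

open Pool.Agent.V11300.KSW

theorem c92 : Nat.ble 1428650 (total (flds 18 13 262144 24117248 ps) 13 24117248 20000000000 32) = true := by
  decide +kernel

theorem b92 : (1428650 : ℝ) / 10000000000 ≤ ∑ n ∈ Finset.range 262144, G (24117248 + n) := by
  have h := seg_bound' (M := 18) (t := 13) (K := 32) (by norm_num) (by norm_num) (by norm_num) (by norm_num)
    (by norm_num) (by norm_num) c92
  exact_mod_cast h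

theorem c93 : Nat.ble 1428823 (total (flds 18 13 262144 24379392 ps) 13 24379392 20000000000 32) = true := by
  decide +kernel

theorem b93 : (1428823 : ℝ) / 10000000000 ≤ ∑ n ∈ Finset.range 262144, G (24379392 + n) := by
  have h := seg_bound' (M := 18) (t := 13) (K := 32) (by norm_num) (by norm_num) (by norm_num) (by norm_num)
    (by norm_num) (by norm_num) c93
  exact_mod_cast h

theorem d93 : (2857473 : ℝ) / 10000000000 ≤ ∑ n ∈ Finset.range 524288, G (24117248 + n) := by
  have h := join b92 b93
  norm_num at h ⊢
  exact h

theorem c94 : Nat.ble 1374736 (total (flds 18 13 262144 24641536 ps) 13 24641536 20000000000 32) = true := by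
  decide +kernel

theorem b94 : (1374736 : ℝ) / 10000000000 ≤ ∑ n ∈ Finset.range 262144, G (24641536 + n) := by
  have h := seg_bound' (M := 18) (t := 13) (K := 32) (by norm_num) (by norm_num) (by norm_num) (by norm_num)
    (by norm_num) (by norm_num) c94
  exact_mod_cast h

theorem d94 : (4232209 : ℝ) / 10000000000 ≤ ∑ n ∈ Finset.range 786432, G (24117248 + n) := by
  have h := join d93 b94
  norm_num at h ⊢
  exact h

theorem c95 : Nat.ble 1355522 (total (flds 18 13 262144 24903680 ps) 13 24903680 20000000000 32) = true := by
  decide +kernel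

theorem b95 : (1355522 : ℝ) / 10000000000 ≤ ∑ n ∈ Finset.range 262144, G (24903680 + n) := by
  have h := seg_bound' (M := 18) (t := 13) (K := 32) (by norm_num) (by norm_num) (by norm_num) (by norm_num)
    (by norm_num) (by norm_num) c95
  exact_mod_cast h

theorem d95 : (5587731 : ℝ) / 10000000000 ≤ ∑ n ∈ Finset.range 1048576, G (24117248 + n) := by
  have h := join d94 b95
  norm_num at h ⊢
  exact h

theorem c96 : Nat.ble 1356735 (total (flds 18 13 262144 25165824 ps) 13 25165824 20000000000 32) = true := by
  decide +kernel

theorem b96 : (1356735 : ℝ) / 10000000000 ≤ ∑ n ∈ Finset.range 262144, G (25165824 + n) := by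
  have h := seg_bound' (M := 18) (t := 13) (K := 32) (by norm_num) (by norm_num) (by norm_num) (by norm_num)
    (by norm_num) (by norm_num) c96
  exact_mod_cast h

theorem d96 : (6944466 : ℝ) / 10000000000 ≤ ∑ n ∈ Finset.range 1310720, G (24117248 + n) := by
  have h := join d95 b96
  norm_num at h ⊢
  exact h

theorem c97 : Nat.ble 1349065 (total (flds 18 13 262144 25427968 ps) 13 25427968 20000000000 32) = true := by
  decide +kernel

theorem b97 : (1349065 : ℝ) / 10000000000 ≤ ∑ n ∈ Finset.range 262144, G (25427968 + n) := by
  have h := seg_bound' (M := 18) (t := 13) (K := 32) (by norm_num) (by norm_num) (by norm_num) (by norm_num)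
    (by norm_num) (by norm_num) c97
  exact_mod_cast h

theorem d97 : (8293531 : ℝ) / 10000000000 ≤ ∑ n ∈ Finset.range 1572864, G (24117248 + n) := by
  have h := join d96 b97
  norm_num at h ⊢
  exact h

theorem c98 : Nat.ble 1355250 (total (flds 18 13 262144 25690112 ps) 13 25690112 20000000000 32) = true := by
  decide +kernel

theorem b98 : (1355250 : ℝ) / 10000000000 ≤ ∑ n ∈ Finset.range 262144, G (25690112 + n) := by
  have h := seg_bound' (M := 18) (t := 13) (K := 32) (by norm_num) (by norm_num) (by norm_num) (by norm_num)
    (by norm_num) (by norm_num) c98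
  exact_mod_cast h

theorem d98 : (9648781 : ℝ) / 10000000000 ≤ ∑ n ∈ Finset.range 1835008, G (24117248 + n) := by
  have h := join d97 b98
  norm_num at h ⊢
  exact h

theorem c99 : Nat.ble 1309272 (total (flds 18 13 262144 25952256 ps) 13 25952256 20000000000 32) = true := by
  decide +kernel

theorem b99 : (1309272 : ℝ) / 10000000000 ≤ ∑ n ∈ Finset.range 262144, G (25952256 + n) := by
  have h := seg_bound' (M := 18) (t := 13) (K := 32) (by norm_num) (by norm_num) (by norm_num) (by norm_num)
    (by norm_num) (by norm_num) c99
  exact_mod_cast h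

theorem d99 : (10958053 : ℝ) / 10000000000 ≤ ∑ n ∈ Finset.range 2097152, G (24117248 + n) := by
  have h := join d98 b99
  norm_num at h ⊢
  exact h

end Pool.Agent.V11300.G6
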