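import Pool.Agent.V11300.KS.Complete

set_option autoImplicit false
set_option maxRecDepth 100000

namespace Pool.Agent.V11300.G6

open Pool.Agent.V11300.KSW

theorem c100 : Nat.ble 1287795 (total (flds 18 13 262144 26214400 ps) 13 26214400 20000000000 32) = true := by
  decide +kernel

theorem b100 : (1287795 : ℝ) / 10000000000 ≤ ∑ n ∈ Finset.range 262144, G (26214400 + n) := by
  have h := seg_bound' (M := 18) (t := 13) (K := 32) (by norm_num) (by norm_num) (by norm_num) (by norm_num)
    (by norm_num) (by norm_num) c100
  exact_mod_cast h

theorem c101 : Nat.ble 1280255 (total (flds 18 13 262144 26476544 ps) 13 26476544 20000000000 32) = true := by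
  decide +kernel

theorem b101 : (1280255 : ℝ) / 10000000000 ≤ ∑ n ∈ Finset.range 262144, G (26476544 + n) := by
  have h := seg_bound' (M := 18) (t := 13) (K := 32) (by norm_num) (by norm_num) (by norm_num) (by norm_num)
    (by norm_num) (by norm_num) c101
  exact_mod_cast h

theorem d101 : (2568050 : ℝ) / 10000000000 ≤ ∑ n ∈ Finset.range 524288, G (26214400 + n) := by
  have h := join b100 b101
  norm_num at h ⊢
  exact h

theorem c102 : Nat.ble 1283304 (total (flds 18 13 262144 26738688 ps) 13 26738688 20000000000 32) = true := by
  decide +kernel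

theorem b102 : (1283304 : ℝ) / 10000000000 ≤ ∑ n ∈ Finset.range 262144, G (26738688 + n) := by
  have h := seg_bound' (M := 18) (t := 13) (K := 32) (by norm_num) (by norm_num) (by norm_num) (by norm_num)
    (by norm_num) (by norm_num) c102
  exact_mod_cast h

theorem d102 : (3851354 : ℝ) / 10000000000 ≤ ∑ n ∈ Finset.range 786432, G (26214400 + n) := by
  have h := join d101 b102
  norm_num at h ⊢
  exact h

theorem c103 : Nat.ble 1274074 (total (flds 18 13 262144 27000832 ps) 13 27000832 20000000000 32) = true := by
  decide +kernel

theorem b103 : (1274074 : ℝ) / 10000000000 ≤ ∑ n ∈ Finset.range 262144, G (27000832 + n) := by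
  have h := seg_bound' (M := 18) (t := 13) (K := 32) (by norm_num) (by norm_num) (by norm_num) (by norm_num)
    (by norm_num) (by norm_num) c103
  exact_mod_cast h

theorem d103 : (5125428 : ℝ) / 10000000000 ≤ ∑ n ∈ Finset.range 1048576, G (26214400 + n) := by
  have h := join d102 b103
  norm_num at h ⊢
  exact h

theorem c104 : Nat.ble 1242287 (total (flds 18 13 262144 27262976 ps) 13 27262976 20000000000 32) = true := by
  decide +kernel

theorem b104 : (1242287 : ℝ) / 10000000000 ≤ ∑ n ∈ Finset.range 262144, G (27262976 + n) := by
  have h := seg_bound' (M := 18) (t := 13) (K := 32) (by norm_num) (by norm_num) (by norm_num) (by norm_num)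
    (by norm_num) (by norm_num) c104
  exact_mod_cast h

theorem d104 : (6367715 : ℝ) / 10000000000 ≤ ∑ n ∈ Finset.range 1310720, G (26214400 + n) := by
  have h := join d103 b104
  norm_num at h ⊢
  exact h

theorem c105 : Nat.ble 1253598 (total (flds 18 13 262144 27525120 ps) 13 27525120 20000000000 32) = true := by
  decide +kernel

theorem b105 : (1253598 : ℝ) / 10000000000 ≤ ∑ n ∈ Finset.range 262144, G (27525120 + n) := by
  have h := seg_bound' (M := 18) (t := 13) (K := 32) (by norm_num) (by norm_num) (by norm_num) (by norm_num)
    (by norm_num) (by norm_num) c105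
  exact_mod_cast h

theorem d105 : (7621313 : ℝ) / 10000000000 ≤ ∑ n ∈ Finset.range 1572864, G (26214400 + n) := by
  have h := join d104 b105
  norm_num at h ⊢
  exact h

theorem c106 : Nat.ble 1235760 (total (flds 18 13 262144 27787264 ps) 13 27787264 20000000000 32) = true := by
  decide +kernel

theorem b106 : (1235760 : ℝ) / 10000000000 ≤ ∑ n ∈ Finset.range 262144, G (27787264 + n) := by
  have h := seg_bound' (M := 18) (t := 13) (K := 32) (by norm_num) (by norm_num) (by norm_num) (by norm_num)
    (by norm_num) (by norm_num) c106
  exact_mod_cast h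

theorem d106 : (8857073 : ℝ) / 10000000000 ≤ ∑ n ∈ Finset.range 1835008, G (26214400 + n) := by
  have h := join d105 b106
  norm_num at h ⊢
  exact h

theorem c107 : Nat.ble 1220542 (total (flds 18 13 262144 28049408 ps) 13 28049408 20000000000 32) = true := by
  decide +kernel

theorem b107 : (1220542 : ℝ) / 10000000000 ≤ ∑ n ∈ Finset.range 262144, G (28049408 + n) := by
  have h := seg_bound' (M := 18) (t := 13) (K := 32) (by norm_num) (by norm_num) (by norm_num) (by norm_num)
    (by norm_num) (by norm_num) c107
  exact_mod_cast h

theorem d107 : (10077615 : ℝ) / 10000000000 ≤ ∑ n ∈ Finset.range 2097152, G (26214400 + n) := by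
  have h := join d106 b107
  norm_num at h ⊢
  exact h

end Pool.Agent.V11300.G6
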