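import Pool.Agent.V11300.KS.Complete

set_option autoImplicit false
set_option maxRecDepth 100000

namespace Pool.Agent.V11300.G6

open Pool.Agent.V11300.KSW

theorem c108 : Nat.ble 1204206 (total (flds 18 13 262144 28311552 ps) 13 28311552 20000000000 32) = true := by
  decide +kernel

theorem b108 : (1204206 : ℝ) / 10000000000 ≤ ∑ n ∈ Finset.range 262144, G (28311552 + n) := by
  have h := seg_bound' (M := 18) (t := 13) (K := 32) (by norm_num) (by norm_num) (by norm_num) (by norm_num)
    (by norm_num) (by norm_num) c108
  exact_mod_cast h

theorem c109 : Nat.ble 1185565 (total (flds 18 13 262144 28573696 ps) 13 28573696 20000000000 32) = true := by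
  decide +kernel

theorem b109 : (1185565 : ℝ) / 10000000000 ≤ ∑ n ∈ Finset.range 262144, G (28573696 + n) := by
  have h := seg_bound' (M := 18) (t := 13) (K := 32) (by norm_num) (by norm_num) (by norm_num) (by norm_num)
    (by norm_num) (by norm_num) c109
  exact_mod_cast h

theorem d109 : (2389771 : ℝ) / 10000000000 ≤ ∑ n ∈ Finset.range 524288, G (28311552 + n) := by
  have h := join b108 b109
  norm_num at h ⊢
  exact h

theorem c110 : Nat.ble 1180502 (total (flds 18 13 262144 28835840 ps) 13 28835840 20000000000 32) = true := by
  decide +kernel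

theorem b110 : (1180502 : ℝ) / 10000000000 ≤ ∑ n ∈ Finset.range 262144, G (28835840 + n) := by
  have h := seg_bound' (M := 18) (t := 13) (K := 32) (by norm_num) (by norm_num) (by norm_num) (by norm_num)
    (by norm_num) (by norm_num) c110
  exact_mod_cast h

theorem d110 : (3570273 : ℝ) / 10000000000 ≤ ∑ n ∈ Finset.range 786432, G (28311552 + n) := by
  have h := join d109 b110
  norm_num at h ⊢
  exact h

theorem c111 : Nat.ble 1164869 (total (flds 18 13 262144 29097984 ps) 13 29097984 20000000000 32) = true := by
  decide +kernel

theorem b111 : (1164869 : ℝ) / 10000000000 ≤ ∑ n ∈ Finset.range 262144, G (29097984 + n) := by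
  have h := seg_bound' (M := 18) (t := 13) (K := 32) (by norm_num) (by norm_num) (by norm_num) (by norm_num)
    (by norm_num) (by norm_num) c111
  exact_mod_cast h

theorem d111 : (4735142 : ℝ) / 10000000000 ≤ ∑ n ∈ Finset.range 1048576, G (28311552 + n) := by
  have h := join d110 b111
  norm_num at h ⊢
  exact h

theorem c112 : Nat.ble 1170116 (total (flds 18 13 262144 29360128 ps) 13 29360128 20000000000 32) = true := by
  decide +kernel

theorem b112 : (1170116 : ℝ) / 10000000000 ≤ ∑ n ∈ Finset.range 262144, G (29360128 + n) := by
  have h := seg_bound' (M := 18) (t := 13) (K := 32) (by norm_num) (by norm_num) (by norm_num) (by norm_num)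
    (by norm_num) (by norm_num) c112
  exact_mod_cast h

theorem d112 : (5905258 : ℝ) / 10000000000 ≤ ∑ n ∈ Finset.range 1310720, G (28311552 + n) := by
  have h := join d111 b112
  norm_num at h ⊢
  exact h

theorem c113 : Nat.ble 1147748 (total (flds 18 13 262144 29622272 ps) 13 29622272 20000000000 32) = true := by
  decide +kernel

theorem b113 : (1147748 : ℝ) / 10000000000 ≤ ∑ n ∈ Finset.range 262144, G (29622272 + n) := by
  have h := seg_bound' (M := 18) (t := 13) (K := 32) (by norm_num) (by norm_num) (by norm_num) (by norm_num)
    (by norm_num) (by norm_num) c113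
  exact_mod_cast h

theorem d113 : (7053006 : ℝ) / 10000000000 ≤ ∑ n ∈ Finset.range 1572864, G (28311552 + n) := by
  have h := join d112 b113
  norm_num at h ⊢
  exact h

theorem c114 : Nat.ble 1124940 (total (flds 18 13 262144 29884416 ps) 13 29884416 20000000000 32) = true := by
  decide +kernel

theorem b114 : (1124940 : ℝ) / 10000000000 ≤ ∑ n ∈ Finset.range 262144, G (29884416 + n) := by
  have h := seg_bound' (M := 18) (t := 13) (K := 32) (by norm_num) (by norm_num) (by norm_num) (by norm_num)
    (by norm_num) (by norm_num) c114
  exact_mod_cast h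

theorem d114 : (8177946 : ℝ) / 10000000000 ≤ ∑ n ∈ Finset.range 1835008, G (28311552 + n) := by
  have h := join d113 b114
  norm_num at h ⊢
  exact h

theorem c115 : Nat.ble 1120470 (total (flds 18 13 262144 30146560 ps) 13 30146560 20000000000 32) = true := by
  decide +kernel

theorem b115 : (1120470 : ℝ) / 10000000000 ≤ ∑ n ∈ Finset.range 262144, G (30146560 + n) := by
  have h := seg_bound' (M := 18) (t := 13) (K := 32) (by norm_num) (by norm_num) (by norm_num) (by norm_num)
    (by norm_num) (by norm_num) c115
  exact_mod_cast h

theorem d115 : (9298416 : ℝ) / 10000000000 ≤ ∑ n ∈ Finset.range 2097152, G (28311552 + n) := by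
  have h := join d114 b115
  norm_num at h ⊢
  exact h

end Pool.Agent.V11300.G6
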