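import Pool.Agent.V11300.KS.Complete

set_option autoImplicit false
set_option maxRecDepth 100000

namespace Pool.Agent.V11300.G6

open Pool.Agent.V11300.KSW

theorem c124 : Nat.ble 1014568 (total (flds 18 13 262144 32505856 ps) 13 32505856 20000000000 32) = true := by
  decide +kernel

theorem b124 : (1014568 : ℝ) / 10000000000 ≤ ∑ n ∈ Finset.range 262144, G (32505856 + n) := by
  have h := seg_bound' (M := 18) (t := 13) (K := 32) (by norm_num) (by norm_num) (by norm_num) (by norm_num)
    (by norm_num) (by norm_num) c124
  exact_mod_cast h

theorem c125 : Nat.ble 1021356 (total (flds 18 13 262144 32768000 ps) 13 32768000 20000000000 32) = true := by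
  decide +kernel

theorem b125 : (1021356 : ℝ) / 10000000000 ≤ ∑ n ∈ Finset.range 262144, G (32768000 + n) := by
  have h := seg_bound' (M := 18) (t := 13) (K := 32) (by norm_num) (by norm_num) (by norm_num) (by norm_num)
    (by norm_num) (by norm_num) c125
  exact_mod_cast h

theorem d125 : (2035924 : ℝ) / 10000000000 ≤ ∑ n ∈ Finset.range 524288, G (32505856 + n) := by
  have h := join b124 b125
  norm_num at h ⊢
  exact h

theorem c126 : Nat.ble 1021583 (total (flds 18 13 262144 33030144 ps) 13 33030144 20000000000 32) = true := by
  decide +kernel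

theorem b126 : (1021583 : ℝ) / 10000000000 ≤ ∑ n ∈ Finset.range 262144, G (33030144 + n) := by
  have h := seg_bound' (M := 18) (t := 13) (K := 32) (by norm_num) (by norm_num) (by norm_num) (by norm_num)
    (by norm_num) (by norm_num) c126
  exact_mod_cast h

theorem d126 : (3057507 : ℝ) / 10000000000 ≤ ∑ n ∈ Finset.range 786432, G (32505856 + n) := by
  have h := join d125 b126
  norm_num at h ⊢
  exact h

theorem c127 : Nat.ble 1013152 (total (flds 18 13 262144 33292288 ps) 13 33292288 20000000000 32) = true := by
  decide +kernel

theorem b127 : (1013152 : ℝ) / 10000000000 ≤ ∑ n ∈ Finset.range 262144, G (33292288 + n) := by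
  have h := seg_bound' (M := 18) (t := 13) (K := 32) (by norm_num) (by norm_num) (by norm_num) (by norm_num)
    (by norm_num) (by norm_num) c127
  exact_mod_cast h

theorem d127 : (4070659 : ℝ) / 10000000000 ≤ ∑ n ∈ Finset.range 1048576, G (32505856 + n) := by
  have h := join d126 b127
  norm_num at h ⊢
  exact h

theorem c128 : Nat.ble 1003664 (total (flds 18 13 262144 33554432 ps) 13 33554432 20000000000 32) = true := by
  decide +kernel

theorem b128 : (1003664 : ℝ) / 10000000000 ≤ ∑ n ∈ Finset.range 262144, G (33554432 + n) := by
  have h := seg_bound' (M := 18) (t := 13) (K := 32) (by norm_num) (by norm_num) (by norm_num) (by norm_num)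
    (by norm_num) (by norm_num) c128
  exact_mod_cast h

theorem d128 : (5074323 : ℝ) / 10000000000 ≤ ∑ n ∈ Finset.range 1310720, G (32505856 + n) := by
  have h := join d127 b128
  norm_num at h ⊢
  exact h

theorem c129 : Nat.ble 995714 (total (flds 18 13 262144 33816576 ps) 13 33816576 20000000000 32) = true := by
  decide +kernel

theorem b129 : (995714 : ℝ) / 10000000000 ≤ ∑ n ∈ Finset.range 262144, G (33816576 + n) := by
  have h := seg_bound' (M := 18) (t := 13) (K := 32) (by norm_num) (by norm_num) (by norm_num) (by norm_num)
    (by norm_num) (by norm_num) c129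
  exact_mod_cast h

theorem d129 : (6070037 : ℝ) / 10000000000 ≤ ∑ n ∈ Finset.range 1572864, G (32505856 + n) := by
  have h := join d128 b129
  norm_num at h ⊢
  exact h

theorem c130 : Nat.ble 960798 (total (flds 18 13 262144 34078720 ps) 13 34078720 20000000000 32) = true := by
  decide +kernel

theorem b130 : (960798 : ℝ) / 10000000000 ≤ ∑ n ∈ Finset.range 262144, G (34078720 + n) := by
  have h := seg_bound' (M := 18) (t := 13) (K := 32) (by norm_num) (by norm_num) (by norm_num) (by norm_num)
    (by norm_num) (by norm_num) c130
  exact_mod_cast h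

theorem d130 : (7030835 : ℝ) / 10000000000 ≤ ∑ n ∈ Finset.range 1835008, G (32505856 + n) := by
  have h := join d129 b130
  norm_num at h ⊢
  exact h

theorem c131 : Nat.ble 968844 (total (flds 18 13 262144 34340864 ps) 13 34340864 20000000000 32) = true := by
  decide +kernel

theorem b131 : (968844 : ℝ) / 10000000000 ≤ ∑ n ∈ Finset.range 262144, G (34340864 + n) := by
  have h := seg_bound' (M := 18) (t := 13) (K := 32) (by norm_num) (by norm_num) (by norm_num) (by norm_num)
    (by norm_num) (by norm_num) c131
  exact_mod_cast h

theorem d131 : (7999679 : ℝ) / 10000000000 ≤ ∑ n ∈ Finset.range 2097152, G (32505856 + n) := by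
  have h := join d130 b131
  norm_num at h ⊢
  exact h

end Pool.Agent.V11300.G6
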