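import Pool.Agent.V11300.KS.Complete

set_option autoImplicit false
set_option maxRecDepth 100000

namespace Pool.Agent.V11300.G6

open Pool.Agent.V11300.KSW

theorem c132 : Nat.ble 965100 (total (flds 18 13 262144 34603008 ps) 13 34603008 20000000000 32) = true := by
  decide +kernel

theorem b132 : (965100 : ℝ) / 10000000000 ≤ ∑ n ∈ Finset.range 262144, G (34603008 + n) := by
  have h := seg_bound' (M := 18) (t := 13) (K := 32) (by norm_num) (by norm_num) (by norm_num) (by norm_num)
    (by norm_num) (by norm_num) c132
  exact_mod_cast h

theorem c133 : Nat.ble 957518 (total (flds 18 13 262144 34865152 ps) 13 34865152 20000000000 32) = true := by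
  decide +kernel

theorem b133 : (957518 : ℝ) / 10000000000 ≤ ∑ n ∈ Finset.range 262144, G (34865152 + n) := by
  have h := seg_bound' (M := 18) (t := 13) (K := 32) (by norm_num) (by norm_num) (by norm_num) (by norm_num)
    (by norm_num) (by norm_num) c133
  exact_mod_cast h

theorem d133 : (1922618 : ℝ) / 10000000000 ≤ ∑ n ∈ Finset.range 524288, G (34603008 + n) := by
  have h := join b132 b133
  norm_num at h ⊢
  exact h

theorem c134 : Nat.ble 951715 (total (flds 18 13 262144 35127296 ps) 13 35127296 20000000000 32) = true := by
  decide +kernel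

theorem b134 : (951715 : ℝ) / 10000000000 ≤ ∑ n ∈ Finset.range 262144, G (35127296 + n) := by
  have h := seg_bound' (M := 18) (t := 13) (K := 32) (by norm_num) (by norm_num) (by norm_num) (by norm_num)
    (by norm_num) (by norm_num) c134
  exact_mod_cast h

theorem d134 : (2874333 : ℝ) / 10000000000 ≤ ∑ n ∈ Finset.range 786432, G (34603008 + n) := by
  have h := join d133 b134
  norm_num at h ⊢
  exact h

theorem c135 : Nat.ble 934746 (total (flds 18 13 262144 35389440 ps) 13 35389440 20000000000 32) = true := by
  decide +kernel

theorem b135 : (934746 : ℝ) / 10000000000 ≤ ∑ n ∈ Finset.range 262144, G (35389440 + n) := by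
  have h := seg_bound' (M := 18) (t := 13) (K := 32) (by norm_num) (by norm_num) (by norm_num) (by norm_num)
    (by norm_num) (by norm_num) c135
  exact_mod_cast h

theorem d135 : (3809079 : ℝ) / 10000000000 ≤ ∑ n ∈ Finset.range 1048576, G (34603008 + n) := by
  have h := join d134 b135
  norm_num at h ⊢
  exact h

theorem c136 : Nat.ble 943911 (total (flds 18 13 262144 35651584 ps) 13 35651584 20000000000 32) = true := by
  decide +kernel

theorem b136 : (943911 : ℝ) / 10000000000 ≤ ∑ n ∈ Finset.range 262144, G (35651584 + n) := by
  have h := seg_bound' (M := 18) (t := 13) (K := 32) (by norm_num) (by norm_num) (by norm_num) (by norm_num)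
    (by norm_num) (by norm_num) c136
  exact_mod_cast h

theorem d136 : (4752990 : ℝ) / 10000000000 ≤ ∑ n ∈ Finset.range 1310720, G (34603008 + n) := by
  have h := join d135 b136
  norm_num at h ⊢
  exact h

theorem c137 : Nat.ble 920215 (total (flds 18 13 262144 35913728 ps) 13 35913728 20000000000 32) = true := by
  decide +kernel

theorem b137 : (920215 : ℝ) / 10000000000 ≤ ∑ n ∈ Finset.range 262144, G (35913728 + n) := by
  have h := seg_bound' (M := 18) (t := 13) (K := 32) (by norm_num) (by norm_num) (by norm_num) (by norm_num)
    (by norm_num) (by norm_num) c137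
  exact_mod_cast h

theorem d137 : (5673205 : ℝ) / 10000000000 ≤ ∑ n ∈ Finset.range 1572864, G (34603008 + n) := by
  have h := join d136 b137
  norm_num at h ⊢
  exact h

theorem c138 : Nat.ble 915579 (total (flds 18 13 262144 36175872 ps) 13 36175872 20000000000 32) = true := by
  decide +kernel

theorem b138 : (915579 : ℝ) / 10000000000 ≤ ∑ n ∈ Finset.range 262144, G (36175872 + n) := by
  have h := seg_bound' (M := 18) (t := 13) (K := 32) (by norm_num) (by norm_num) (by norm_num) (by norm_num)
    (by norm_num) (by norm_num) c138
  exact_mod_cast h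

theorem d138 : (6588784 : ℝ) / 10000000000 ≤ ∑ n ∈ Finset.range 1835008, G (34603008 + n) := by
  have h := join d137 b138
  norm_num at h ⊢
  exact h

theorem c139 : Nat.ble 914229 (total (flds 18 13 262144 36438016 ps) 13 36438016 20000000000 32) = true := by
  decide +kernel

theorem b139 : (914229 : ℝ) / 10000000000 ≤ ∑ n ∈ Finset.range 262144, G (36438016 + n) := by
  have h := seg_bound' (M := 18) (t := 13) (K := 32) (by norm_num) (by norm_num) (by norm_num) (by norm_num)
    (by norm_num) (by norm_num) c139
  exact_mod_cast h

theorem d139 : (7503013 : ℝ) / 10000000000 ≤ ∑ n ∈ Finset.range 2097152, G (34603008 + n) := by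
  have h := join d138 b139
  norm_num at h ⊢
  exact h

end Pool.Agent.V11300.G6
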