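import Pool.Agent.V11300.KS.Complete

set_option autoImplicit false
set_option maxRecDepth 100000

namespace Pool.Agent.V11300.G6

open Pool.Agent.V11300.KSW

theorem c140 : Nat.ble 898552 (total (flds 18 13 262144 36700160 ps) 13 36700160 20000000000 32) = true := by
  decide +kernel

theorem b140 : (898552 : ℝ) / 10000000000 ≤ ∑ n ∈ Finset.range 262144, G (36700160 + n) := by
  have h := seg_bound' (M := 18) (t := 13) (K := 32) (by norm_num) (by norm_num) (by norm_num) (by norm_num)
    (by norm_num) (by norm_num) c140
  exact_mod_cast h

theorem c141 : Nat.ble 896084 (total (flds 18 13 262144 36962304 ps) 13 36962304 20000000000 32) = true := by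
  decide +kernel

theorem b141 : (896084 : ℝ) / 10000000000 ≤ ∑ n ∈ Finset.range 262144, G (36962304 + n) := by
  have h := seg_bound' (M := 18) (t := 13) (K := 32) (by norm_num) (by norm_num) (by norm_num) (by norm_num)
    (by norm_num) (by norm_num) c141
  exact_mod_cast h

theorem d141 : (1794636 : ℝ) / 10000000000 ≤ ∑ n ∈ Finset.range 524288, G (36700160 + n) := by
  have h := join b140 b141
  norm_num at h ⊢
  exact h

theorem c142 : Nat.ble 873667 (total (flds 18 13 262144 37224448 ps) 13 37224448 20000000000 32) = true := by
  decide +kernel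

theorem b142 : (873667 : ℝ) / 10000000000 ≤ ∑ n ∈ Finset.range 262144, G (37224448 + n) := by
  have h := seg_bound' (M := 18) (t := 13) (K := 32) (by norm_num) (by norm_num) (by norm_num) (by norm_num)
    (by norm_num) (by norm_num) c142
  exact_mod_cast h

theorem d142 : (2668303 : ℝ) / 10000000000 ≤ ∑ n ∈ Finset.range 786432, G (36700160 + n) := by
  have h := join d141 b142
  norm_num at h ⊢
  exact h

theorem c143 : Nat.ble 886333 (total (flds 18 13 262144 37486592 ps) 13 37486592 20000000000 32) = true := by
  decide +kernel

theorem b143 : (886333 : ℝ) / 10000000000 ≤ ∑ n ∈ Finset.range 262144, G (37486592 + n) := by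
  have h := seg_bound' (M := 18) (t := 13) (K := 32) (by norm_num) (by norm_num) (by norm_num) (by norm_num)
    (by norm_num) (by norm_num) c143
  exact_mod_cast h

theorem d143 : (3554636 : ℝ) / 10000000000 ≤ ∑ n ∈ Finset.range 1048576, G (36700160 + n) := by
  have h := join d142 b143
  norm_num at h ⊢
  exact h

theorem c144 : Nat.ble 871758 (total (flds 18 13 262144 37748736 ps) 13 37748736 20000000000 32) = true := by
  decide +kernel

theorem b144 : (871758 : ℝ) / 10000000000 ≤ ∑ n ∈ Finset.range 262144, G (37748736 + n) := by
  have h := seg_bound' (M := 18) (t := 13) (K := 32) (by norm_num) (by norm_num) (by norm_num) (by norm_num)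
    (by norm_num) (by norm_num) c144
  exact_mod_cast h

theorem d144 : (4426394 : ℝ) / 10000000000 ≤ ∑ n ∈ Finset.range 1310720, G (36700160 + n) := by
  have h := join d143 b144
  norm_num at h ⊢
  exact h

theorem c145 : Nat.ble 861426 (total (flds 18 13 262144 38010880 ps) 13 38010880 20000000000 32) = true := by
  decide +kernel

theorem b145 : (861426 : ℝ) / 10000000000 ≤ ∑ n ∈ Finset.range 262144, G (38010880 + n) := by
  have h := seg_bound' (M := 18) (t := 13) (K := 32) (by norm_num) (by norm_num) (by norm_num) (by norm_num)
    (by norm_num) (by norm_num) c145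
  exact_mod_cast h

theorem d145 : (5287820 : ℝ) / 10000000000 ≤ ∑ n ∈ Finset.range 1572864, G (36700160 + n) := by
  have h := join d144 b145
  norm_num at h ⊢
  exact h

theorem c146 : Nat.ble 884241 (total (flds 18 13 262144 38273024 ps) 13 38273024 20000000000 32) = true := by
  decide +kernel

theorem b146 : (884241 : ℝ) / 10000000000 ≤ ∑ n ∈ Finset.range 262144, G (38273024 + n) := by
  have h := seg_bound' (M := 18) (t := 13) (K := 32) (by norm_num) (by norm_num) (by norm_num) (by norm_num)
    (by norm_num) (by norm_num) c146
  exact_mod_cast h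

theorem d146 : (6172061 : ℝ) / 10000000000 ≤ ∑ n ∈ Finset.range 1835008, G (36700160 + n) := by
  have h := join d145 b146
  norm_num at h ⊢
  exact h

theorem c147 : Nat.ble 856382 (total (flds 18 13 262144 38535168 ps) 13 38535168 20000000000 32) = true := by
  decide +kernel

theorem b147 : (856382 : ℝ) / 10000000000 ≤ ∑ n ∈ Finset.range 262144, G (38535168 + n) := by
  have h := seg_bound' (M := 18) (t := 13) (K := 32) (by norm_num) (by norm_num) (by norm_num) (by norm_num)
    (by norm_num) (by norm_num) c147
  exact_mod_cast h

theorem d147 : (7028443 : ℝ) / 10000000000 ≤ ∑ n ∈ Finset.range 2097152, G (36700160 + n) := by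
  have h := join d146 b147
  norm_num at h ⊢
  exact h

end Pool.Agent.V11300.G6
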