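import Pool.Agent.V11300.KS.Complete

set_option autoImplicit false
set_option maxRecDepth 100000

namespace Pool.Agent.V11300.G6

open Pool.Agent.V11300.KSW

theorem c148 : Nat.ble 839674 (total (flds 18 13 262144 38797312 ps) 13 38797312 20000000000 32) = true := by
  decide +kernel

theorem b148 : (839674 : ℝ) / 10000000000 ≤ ∑ n ∈ Finset.range 262144, G (38797312 + n) := by
  have h := seg_bound' (M := 18) (t := 13) (K := 32) (by norm_num) (by norm_num) (by norm_num) (by norm_num)
    (by norm_num) (by norm_num) c148
  exact_mod_cast h

theorem c149 : Nat.ble 843145 (total (flds 18 13 262144 39059456 ps) 13 39059456 20000000000 32) = true := by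
  decide +kernel

theorem b149 : (843145 : ℝ) / 10000000000 ≤ ∑ n ∈ Finset.range 262144, G (39059456 + n) := by
  have h := seg_bound' (M := 18) (t := 13) (K := 32) (by norm_num) (by norm_num) (by norm_num) (by norm_num)
    (by norm_num) (by norm_num) c149
  exact_mod_cast h

theorem d149 : (1682819 : ℝ) / 10000000000 ≤ ∑ n ∈ Finset.range 524288, G (38797312 + n) := by
  have h := join b148 b149
  norm_num at h ⊢
  exact h

theorem c150 : Nat.ble 836726 (total (flds 18 13 262144 39321600 ps) 13 39321600 20000000000 32) = true := by
  decide +kernel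

theorem b150 : (836726 : ℝ) / 10000000000 ≤ ∑ n ∈ Finset.range 262144, G (39321600 + n) := by
  have h := seg_bound' (M := 18) (t := 13) (K := 32) (by norm_num) (by norm_num) (by norm_num) (by norm_num)
    (by norm_num) (by norm_num) c150
  exact_mod_cast h

theorem d150 : (2519545 : ℝ) / 10000000000 ≤ ∑ n ∈ Finset.range 786432, G (38797312 + n) := by
  have h := join d149 b150
  norm_num at h ⊢
  exact h

theorem c151 : Nat.ble 833767 (total (flds 18 13 262144 39583744 ps) 13 39583744 20000000000 32) = true := by
  decide +kernel

theorem b151 : (833767 : ℝ) / 10000000000 ≤ ∑ n ∈ Finset.range 262144, G (39583744 + n) := by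
  have h := seg_bound' (M := 18) (t := 13) (K := 32) (by norm_num) (by norm_num) (by norm_num) (by norm_num)
    (by norm_num) (by norm_num) c151
  exact_mod_cast h

theorem d151 : (3353312 : ℝ) / 10000000000 ≤ ∑ n ∈ Finset.range 1048576, G (38797312 + n) := by
  have h := join d150 b151
  norm_num at h ⊢
  exact h

theorem c152 : Nat.ble 826015 (total (flds 18 13 262144 39845888 ps) 13 39845888 20000000000 32) = true := by
  decide +kernel

theorem b152 : (826015 : ℝ) / 10000000000 ≤ ∑ n ∈ Finset.range 262144, G (39845888 + n) := by
  have h := seg_bound' (M := 18) (t := 13) (K := 32) (by norm_num) (by norm_num) (by norm_num) (by norm_num)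
    (by norm_num) (by norm_num) c152
  exact_mod_cast h

theorem d152 : (4179327 : ℝ) / 10000000000 ≤ ∑ n ∈ Finset.range 1310720, G (38797312 + n) := by
  have h := join d151 b152
  norm_num at h ⊢
  exact h

theorem c153 : Nat.ble 806329 (total (flds 18 13 262144 40108032 ps) 13 40108032 20000000000 32) = true := by
  decide +kernel

theorem b153 : (806329 : ℝ) / 10000000000 ≤ ∑ n ∈ Finset.range 262144, G (40108032 + n) := by
  have h := seg_bound' (M := 18) (t := 13) (K := 32) (by norm_num) (by norm_num) (by norm_num) (by norm_num)
    (by norm_num) (by norm_num) c153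
  exact_mod_cast h

theorem d153 : (4985656 : ℝ) / 10000000000 ≤ ∑ n ∈ Finset.range 1572864, G (38797312 + n) := by
  have h := join d152 b153
  norm_num at h ⊢
  exact h

theorem c154 : Nat.ble 809427 (total (flds 18 13 262144 40370176 ps) 13 40370176 20000000000 32) = true := by
  decide +kernel

theorem b154 : (809427 : ℝ) / 10000000000 ≤ ∑ n ∈ Finset.range 262144, G (40370176 + n) := by
  have h := seg_bound' (M := 18) (t := 13) (K := 32) (by norm_num) (by norm_num) (by norm_num) (by norm_num)
    (by norm_num) (by norm_num) c154
  exact_mod_cast h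

theorem d154 : (5795083 : ℝ) / 10000000000 ≤ ∑ n ∈ Finset.range 1835008, G (38797312 + n) := by
  have h := join d153 b154
  norm_num at h ⊢
  exact h

theorem c155 : Nat.ble 814927 (total (flds 18 13 262144 40632320 ps) 13 40632320 20000000000 32) = true := by
  decide +kernel

theorem b155 : (814927 : ℝ) / 10000000000 ≤ ∑ n ∈ Finset.range 262144, G (40632320 + n) := by
  have h := seg_bound' (M := 18) (t := 13) (K := 32) (by norm_num) (by norm_num) (by norm_num) (by norm_num)
    (by norm_num) (by norm_num) c155
  exact_mod_cast h

theorem d155 : (6610010 : ℝ) / 10000000000 ≤ ∑ n ∈ Finset.range 2097152, G (38797312 + n) := by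
  have h := join d154 b155
  norm_num at h ⊢
  exact h

end Pool.Agent.V11300.G6
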