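import Pool.Agent.V11300.KS.Complete

set_option autoImplicit false
set_option maxRecDepth 100000

namespace Pool.Agent.V11300.G6

open Pool.Agent.V11300.KSW

theorem c156 : Nat.ble 810140 (total (flds 18 13 262144 40894464 ps) 13 40894464 20000000000 32) = true := by
  decide +kernel

theorem b156 : (810140 : ℝ) / 10000000000 ≤ ∑ n ∈ Finset.range 262144, G (40894464 + n) := by
  have h := seg_bound' (M := 18) (t := 13) (K := 32) (by norm_num) (by norm_num) (by norm_num) (by norm_num)
    (by norm_num) (by norm_num) c156
  exact_mod_cast h

theorem c157 : Nat.ble 804334 (total (flds 18 13 262144 41156608 ps) 13 41156608 20000000000 32) = true := by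
  decide +kernel

theorem b157 : (804334 : ℝ) / 10000000000 ≤ ∑ n ∈ Finset.range 262144, G (41156608 + n) := by
  have h := seg_bound' (M := 18) (t := 13) (K := 32) (by norm_num) (by norm_num) (by norm_num) (by norm_num)
    (by norm_num) (by norm_num) c157
  exact_mod_cast h

theorem d157 : (1614474 : ℝ) / 10000000000 ≤ ∑ n ∈ Finset.range 524288, G (40894464 + n) := by
  have h := join b156 b157
  norm_num at h ⊢
  exact h

theorem c158 : Nat.ble 797410 (total (flds 18 13 262144 41418752 ps) 13 41418752 20000000000 32) = true := by
  decide +kernel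

theorem b158 : (797410 : ℝ) / 10000000000 ≤ ∑ n ∈ Finset.range 262144, G (41418752 + n) := by
  have h := seg_bound' (M := 18) (t := 13) (K := 32) (by norm_num) (by norm_num) (by norm_num) (by norm_num)
    (by norm_num) (by norm_num) c158
  exact_mod_cast h

theorem d158 : (2411884 : ℝ) / 10000000000 ≤ ∑ n ∈ Finset.range 786432, G (40894464 + n) := by
  have h := join d157 b158
  norm_num at h ⊢
  exact h

theorem c159 : Nat.ble 783084 (total (flds 18 13 262144 41680896 ps) 13 41680896 20000000000 32) = true := by
  decide +kernel

theorem b159 : (783084 : ℝ) / 10000000000 ≤ ∑ n ∈ Finset.range 262144, G (41680896 + n) := by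
  have h := seg_bound' (M := 18) (t := 13) (K := 32) (by norm_num) (by norm_num) (by norm_num) (by norm_num)
    (by norm_num) (by norm_num) c159
  exact_mod_cast h

theorem d159 : (3194968 : ℝ) / 10000000000 ≤ ∑ n ∈ Finset.range 1048576, G (40894464 + n) := by
  have h := join d158 b159
  norm_num at h ⊢
  exact h

theorem c160 : Nat.ble 771638 (total (flds 18 13 262144 41943040 ps) 13 41943040 20000000000 32) = true := by
  decide +kernel

theorem b160 : (771638 : ℝ) / 10000000000 ≤ ∑ n ∈ Finset.range 262144, G (41943040 + n) := by
  have h := seg_bound' (M := 18) (t := 13) (K := 32) (by norm_num) (by norm_num) (by norm_num) (by norm_num)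
    (by norm_num) (by norm_num) c160
  exact_mod_cast h

theorem d160 : (3966606 : ℝ) / 10000000000 ≤ ∑ n ∈ Finset.range 1310720, G (40894464 + n) := by
  have h := join d159 b160
  norm_num at h ⊢
  exact h

theorem c161 : Nat.ble 775051 (total (flds 18 13 262144 42205184 ps) 13 42205184 20000000000 32) = true := by
  decide +kernel

theorem b161 : (775051 : ℝ) / 10000000000 ≤ ∑ n ∈ Finset.range 262144, G (42205184 + n) := by
  have h := seg_bound' (M := 18) (t := 13) (K := 32) (by norm_num) (by norm_num) (by norm_num) (by norm_num)
    (by norm_num) (by norm_num) c161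
  exact_mod_cast h

theorem d161 : (4741657 : ℝ) / 10000000000 ≤ ∑ n ∈ Finset.range 1572864, G (40894464 + n) := by
  have h := join d160 b161
  norm_num at h ⊢
  exact h

theorem c162 : Nat.ble 771512 (total (flds 18 13 262144 42467328 ps) 13 42467328 20000000000 32) = true := by
  decide +kernel

theorem b162 : (771512 : ℝ) / 10000000000 ≤ ∑ n ∈ Finset.range 262144, G (42467328 + n) := by
  have h := seg_bound' (M := 18) (t := 13) (K := 32) (by norm_num) (by norm_num) (by norm_num) (by norm_num)
    (by norm_num) (by norm_num) c162
  exact_mod_cast h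

theorem d162 : (5513169 : ℝ) / 10000000000 ≤ ∑ n ∈ Finset.range 1835008, G (40894464 + n) := by
  have h := join d161 b162
  norm_num at h ⊢
  exact h

theorem c163 : Nat.ble 765239 (total (flds 18 13 262144 42729472 ps) 13 42729472 20000000000 32) = true := by
  decide +kernel

theorem b163 : (765239 : ℝ) / 10000000000 ≤ ∑ n ∈ Finset.range 262144, G (42729472 + n) := by
  have h := seg_bound' (M := 18) (t := 13) (K := 32) (by norm_num) (by norm_num) (by norm_num) (by norm_num)
    (by norm_num) (by norm_num) c163
  exact_mod_cast h

theorem d163 : (6278408 : ℝ) / 10000000000 ≤ ∑ n ∈ Finset.range 2097152, G (40894464 + n) := by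
  have h := join d162 b163
  norm_num at h ⊢
  exact h

end Pool.Agent.V11300.G6
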