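import Pool.Agent.V11300.KS.Complete

set_option autoImplicit false
set_option maxRecDepth 100000

namespace Pool.Agent.V11300.G6

open Pool.Agent.V11300.KSW

theorem c164 : Nat.ble 756595 (total (flds 18 13 262144 42991616 ps) 13 42991616 20000000000 32) = true := by
  decide +kernel

theorem b164 : (756595 : ℝ) / 10000000000 ≤ ∑ n ∈ Finset.range 262144, G (42991616 + n) := by
  have h := seg_bound' (M := 18) (t := 13) (K := 32) (by norm_num) (by norm_num) (by norm_num) (by norm_num)
    (by norm_num) (by norm_num) c164
  exact_mod_cast h

theorem c165 : Nat.ble 755022 (total (flds 18 13 262144 43253760 ps) 13 43253760 20000000000 32) = true := by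
  decide +kernel

theorem b165 : (755022 : ℝ) / 10000000000 ≤ ∑ n ∈ Finset.range 262144, G (43253760 + n) := by
  have h := seg_bound' (M := 18) (t := 13) (K := 32) (by norm_num) (by norm_num) (by norm_num) (by norm_num)
    (by norm_num) (by norm_num) c165
  exact_mod_cast h

theorem d165 : (1511617 : ℝ) / 10000000000 ≤ ∑ n ∈ Finset.range 524288, G (42991616 + n) := by
  have h := join b164 b165
  norm_num at h ⊢
  exact h

theorem c166 : Nat.ble 749804 (total (flds 18 13 262144 43515904 ps) 13 43515904 20000000000 32) = true := by
  decide +kernel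

theorem b166 : (749804 : ℝ) / 10000000000 ≤ ∑ n ∈ Finset.range 262144, G (43515904 + n) := by
  have h := seg_bound' (M := 18) (t := 13) (K := 32) (by norm_num) (by norm_num) (by norm_num) (by norm_num)
    (by norm_num) (by norm_num) c166
  exact_mod_cast h

theorem d166 : (2261421 : ℝ) / 10000000000 ≤ ∑ n ∈ Finset.range 786432, G (42991616 + n) := by
  have h := join d165 b166
  norm_num at h ⊢
  exact h

theorem c167 : Nat.ble 744482 (total (flds 18 13 262144 43778048 ps) 13 43778048 20000000000 32) = true := by
  decide +kernel

theorem b167 : (744482 : ℝ) / 10000000000 ≤ ∑ n ∈ Finset.range 262144, G (43778048 + n) := by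
  have h := seg_bound' (M := 18) (t := 13) (K := 32) (by norm_num) (by norm_num) (by norm_num) (by norm_num)
    (by norm_num) (by norm_num) c167
  exact_mod_cast h

theorem d167 : (3005903 : ℝ) / 10000000000 ≤ ∑ n ∈ Finset.range 1048576, G (42991616 + n) := by
  have h := join d166 b167
  norm_num at h ⊢
  exact h

theorem c168 : Nat.ble 735757 (total (flds 18 13 262144 44040192 ps) 13 44040192 20000000000 32) = true := by
  decide +kernel

theorem b168 : (735757 : ℝ) / 10000000000 ≤ ∑ n ∈ Finset.range 262144, G (44040192 + n) := by
  have h := seg_bound' (M := 18) (t := 13) (K := 32) (by norm_num) (by norm_num) (by norm_num) (by norm_num)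
    (by norm_num) (by norm_num) c168
  exact_mod_cast h

theorem d168 : (3741660 : ℝ) / 10000000000 ≤ ∑ n ∈ Finset.range 1310720, G (42991616 + n) := by
  have h := join d167 b168
  norm_num at h ⊢
  exact h

theorem c169 : Nat.ble 730992 (total (flds 18 13 262144 44302336 ps) 13 44302336 20000000000 32) = true := by
  decide +kernel

theorem b169 : (730992 : ℝ) / 10000000000 ≤ ∑ n ∈ Finset.range 262144, G (44302336 + n) := by
  have h := seg_bound' (M := 18) (t := 13) (K := 32) (by norm_num) (by norm_num) (by norm_num) (by norm_num)
    (by norm_num) (by norm_num) c169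
  exact_mod_cast h

theorem d169 : (4472652 : ℝ) / 10000000000 ≤ ∑ n ∈ Finset.range 1572864, G (42991616 + n) := by
  have h := join d168 b169
  norm_num at h ⊢
  exact h

theorem c170 : Nat.ble 733476 (total (flds 18 13 262144 44564480 ps) 13 44564480 20000000000 32) = true := by
  decide +kernel

theorem b170 : (733476 : ℝ) / 10000000000 ≤ ∑ n ∈ Finset.range 262144, G (44564480 + n) := by
  have h := seg_bound' (M := 18) (t := 13) (K := 32) (by norm_num) (by norm_num) (by norm_num) (by norm_num)
    (by norm_num) (by norm_num) c170
  exact_mod_cast h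

theorem d170 : (5206128 : ℝ) / 10000000000 ≤ ∑ n ∈ Finset.range 1835008, G (42991616 + n) := by
  have h := join d169 b170
  norm_num at h ⊢
  exact h

theorem c171 : Nat.ble 725050 (total (flds 18 13 262144 44826624 ps) 13 44826624 20000000000 32) = true := by
  decide +kernel

theorem b171 : (725050 : ℝ) / 10000000000 ≤ ∑ n ∈ Finset.range 262144, G (44826624 + n) := by
  have h := seg_bound' (M := 18) (t := 13) (K := 32) (by norm_num) (by norm_num) (by norm_num) (by norm_num)
    (by norm_num) (by norm_num) c171
  exact_mod_cast h

theorem d171 : (5931178 : ℝ) / 10000000000 ≤ ∑ n ∈ Finset.range 2097152, G (42991616 + n) := by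
  have h := join d170 b171
  norm_num at h ⊢
  exact h

end Pool.Agent.V11300.G6
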