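import Pool.Agent.V11300.KS.Complete

set_option autoImplicit false
set_option maxRecDepth 100000

namespace Pool.Agent.V11300.G6

open Pool.Agent.V11300.KSW

theorem c172 : Nat.ble 724920 (total (flds 18 13 262144 45088768 ps) 13 45088768 20000000000 32) = true := by
  decide +kernel

theorem b172 : (724920 : ℝ) / 10000000000 ≤ ∑ n ∈ Finset.range 262144, G (45088768 + n) := by
  have h := seg_bound' (M := 18) (t := 13) (K := 32) (by norm_num) (by norm_num) (by norm_num) (by norm_num)
    (by norm_num) (by norm_num) c172
  exact_mod_cast h

theorem c173 : Nat.ble 710674 (total (flds 18 13 262144 45350912 ps) 13 45350912 20000000000 32) = true := by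
  decide +kernel

theorem b173 : (710674 : ℝ) / 10000000000 ≤ ∑ n ∈ Finset.range 262144, G (45350912 + n) := by
  have h := seg_bound' (M := 18) (t := 13) (K := 32) (by norm_num) (by norm_num) (by norm_num) (by norm_num)
    (by norm_num) (by norm_num) c173
  exact_mod_cast h

theorem d173 : (1435594 : ℝ) / 10000000000 ≤ ∑ n ∈ Finset.range 524288, G (45088768 + n) := by
  have h := join b172 b173
  norm_num at h ⊢
  exact h

theorem c174 : Nat.ble 712356 (total (flds 18 13 262144 45613056 ps) 13 45613056 20000000000 32) = true := by
  decide +kernel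

theorem b174 : (712356 : ℝ) / 10000000000 ≤ ∑ n ∈ Finset.range 262144, G (45613056 + n) := by
  have h := seg_bound' (M := 18) (t := 13) (K := 32) (by norm_num) (by norm_num) (by norm_num) (by norm_num)
    (by norm_num) (by norm_num) c174
  exact_mod_cast h

theorem d174 : (2147950 : ℝ) / 10000000000 ≤ ∑ n ∈ Finset.range 786432, G (45088768 + n) := by
  have h := join d173 b174
  norm_num at h ⊢
  exact h

theorem c175 : Nat.ble 714626 (total (flds 18 13 262144 45875200 ps) 13 45875200 20000000000 32) = true := by
  decide +kernel

theorem b175 : (714626 : ℝ) / 10000000000 ≤ ∑ n ∈ Finset.range 262144, G (45875200 + n) := by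
  have h := seg_bound' (M := 18) (t := 13) (K := 32) (by norm_num) (by norm_num) (by norm_num) (by norm_num)
    (by norm_num) (by norm_num) c175
  exact_mod_cast h

theorem d175 : (2862576 : ℝ) / 10000000000 ≤ ∑ n ∈ Finset.range 1048576, G (45088768 + n) := by
  have h := join d174 b175
  norm_num at h ⊢
  exact h

theorem c176 : Nat.ble 703432 (total (flds 18 13 262144 46137344 ps) 13 46137344 20000000000 32) = true := by
  decide +kernel

theorem b176 : (703432 : ℝ) / 10000000000 ≤ ∑ n ∈ Finset.range 262144, G (46137344 + n) := by
  have h := seg_bound' (M := 18) (t := 13) (K := 32) (by norm_num) (by norm_num) (by norm_num) (by norm_num)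
    (by norm_num) (by norm_num) c176
  exact_mod_cast h

theorem d176 : (3566008 : ℝ) / 10000000000 ≤ ∑ n ∈ Finset.range 1310720, G (45088768 + n) := by
  have h := join d175 b176
  norm_num at h ⊢
  exact h

theorem c177 : Nat.ble 684770 (total (flds 18 13 262144 46399488 ps) 13 46399488 20000000000 32) = true := by
  decide +kernel

theorem b177 : (684770 : ℝ) / 10000000000 ≤ ∑ n ∈ Finset.range 262144, G (46399488 + n) := by
  have h := seg_bound' (M := 18) (t := 13) (K := 32) (by norm_num) (by norm_num) (by norm_num) (by norm_num)
    (by norm_num) (by norm_num) c177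
  exact_mod_cast h

theorem d177 : (4250778 : ℝ) / 10000000000 ≤ ∑ n ∈ Finset.range 1572864, G (45088768 + n) := by
  have h := join d176 b177
  norm_num at h ⊢
  exact h

theorem c178 : Nat.ble 703538 (total (flds 18 13 262144 46661632 ps) 13 46661632 20000000000 32) = true := by
  decide +kernel

theorem b178 : (703538 : ℝ) / 10000000000 ≤ ∑ n ∈ Finset.range 262144, G (46661632 + n) := by
  have h := seg_bound' (M := 18) (t := 13) (K := 32) (by norm_num) (by norm_num) (by norm_num) (by norm_num)
    (by norm_num) (by norm_num) c178
  exact_mod_cast h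

theorem d178 : (4954316 : ℝ) / 10000000000 ≤ ∑ n ∈ Finset.range 1835008, G (45088768 + n) := by
  have h := join d177 b178
  norm_num at h ⊢
  exact h

theorem c179 : Nat.ble 684870 (total (flds 18 13 262144 46923776 ps) 13 46923776 20000000000 32) = true := by
  decide +kernel

theorem b179 : (684870 : ℝ) / 10000000000 ≤ ∑ n ∈ Finset.range 262144, G (46923776 + n) := by
  have h := seg_bound' (M := 18) (t := 13) (K := 32) (by norm_num) (by norm_num) (by norm_num) (by norm_num)
    (by norm_num) (by norm_num) c179
  exact_mod_cast h

theorem d179 : (5639186 : ℝ) / 10000000000 ≤ ∑ n ∈ Finset.range 2097152, G (45088768 + n) := by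
  have h := join d178 b179
  norm_num at h ⊢
  exact h

end Pool.Agent.V11300.G6
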