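import Pool.Agent.V11300.KS.Complete

set_option autoImplicit false
set_option maxRecDepth 100000

namespace Pool.Agent.V11300.G6

open Pool.Agent.V11300.KSW

theorem c180 : Nat.ble 686570 (total (flds 18 13 262144 47185920 ps) 13 47185920 20000000000 32) = true := by
  decide +kernel

theorem b180 : (686570 : ℝ) / 10000000000 ≤ ∑ n ∈ Finset.range 262144, G (47185920 + n) := by
  have h := seg_bound' (M := 18) (t := 13) (K := 32) (by norm_num) (by norm_num) (by norm_num) (by norm_num)
    (by norm_num) (by norm_num) c180
  exact_mod_cast h

theorem c181 : Nat.ble 685596 (total (flds 18 13 262144 47448064 ps) 13 47448064 20000000000 32) = true := by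
  decide +kernel

theorem b181 : (685596 : ℝ) / 10000000000 ≤ ∑ n ∈ Finset.range 262144, G (47448064 + n) := by
  have h := seg_bound' (M := 18) (t := 13) (K := 32) (by norm_num) (by norm_num) (by norm_num) (by norm_num)
    (by norm_num) (by norm_num) c181
  exact_mod_cast h

theorem d181 : (1372166 : ℝ) / 10000000000 ≤ ∑ n ∈ Finset.range 524288, G (47185920 + n) := by
  have h := join b180 b181
  norm_num at h ⊢
  exact h

theorem c182 : Nat.ble 690334 (total (flds 18 13 262144 47710208 ps) 13 47710208 20000000000 32) = true := by
  decide +kernel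

theorem b182 : (690334 : ℝ) / 10000000000 ≤ ∑ n ∈ Finset.range 262144, G (47710208 + n) := by
  have h := seg_bound' (M := 18) (t := 13) (K := 32) (by norm_num) (by norm_num) (by norm_num) (by norm_num)
    (by norm_num) (by norm_num) c182
  exact_mod_cast h

theorem d182 : (2062500 : ℝ) / 10000000000 ≤ ∑ n ∈ Finset.range 786432, G (47185920 + n) := by
  have h := join d181 b182
  norm_num at h ⊢
  exact h

theorem c183 : Nat.ble 670288 (total (flds 18 13 262144 47972352 ps) 13 47972352 20000000000 32) = true := by
  decide +kernel

theorem b183 : (670288 : ℝ) / 10000000000 ≤ ∑ n ∈ Finset.range 262144, G (47972352 + n) := by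
  have h := seg_bound' (M := 18) (t := 13) (K := 32) (by norm_num) (by norm_num) (by norm_num) (by norm_num)
    (by norm_num) (by norm_num) c183
  exact_mod_cast h

theorem d183 : (2732788 : ℝ) / 10000000000 ≤ ∑ n ∈ Finset.range 1048576, G (47185920 + n) := by
  have h := join d182 b183
  norm_num at h ⊢
  exact h

theorem c184 : Nat.ble 664798 (total (flds 18 13 262144 48234496 ps) 13 48234496 20000000000 32) = true := by
  decide +kernel

theorem b184 : (664798 : ℝ) / 10000000000 ≤ ∑ n ∈ Finset.range 262144, G (48234496 + n) := by
  have h := seg_bound' (M := 18) (t := 13) (K := 32) (by norm_num) (by norm_num) (by norm_num) (by norm_num)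
    (by norm_num) (by norm_num) c184
  exact_mod_cast h

theorem d184 : (3397586 : ℝ) / 10000000000 ≤ ∑ n ∈ Finset.range 1310720, G (47185920 + n) := by
  have h := join d183 b184
  norm_num at h ⊢
  exact h

theorem c185 : Nat.ble 661024 (total (flds 18 13 262144 48496640 ps) 13 48496640 20000000000 32) = true := by
  decide +kernel

theorem b185 : (661024 : ℝ) / 10000000000 ≤ ∑ n ∈ Finset.range 262144, G (48496640 + n) := by
  have h := seg_bound' (M := 18) (t := 13) (K := 32) (by norm_num) (by norm_num) (by norm_num) (by norm_num)
    (by norm_num) (by norm_num) c185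
  exact_mod_cast h

theorem d185 : (4058610 : ℝ) / 10000000000 ≤ ∑ n ∈ Finset.range 1572864, G (47185920 + n) := by
  have h := join d184 b185
  norm_num at h ⊢
  exact h

theorem c186 : Nat.ble 661140 (total (flds 18 13 262144 48758784 ps) 13 48758784 20000000000 32) = true := by
  decide +kernel

theorem b186 : (661140 : ℝ) / 10000000000 ≤ ∑ n ∈ Finset.range 262144, G (48758784 + n) := by
  have h := seg_bound' (M := 18) (t := 13) (K := 32) (by norm_num) (by norm_num) (by norm_num) (by norm_num)
    (by norm_num) (by norm_num) c186
  exact_mod_cast h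

theorem d186 : (4719750 : ℝ) / 10000000000 ≤ ∑ n ∈ Finset.range 1835008, G (47185920 + n) := by
  have h := join d185 b186
  norm_num at h ⊢
  exact h

theorem c187 : Nat.ble 652682 (total (flds 18 13 262144 49020928 ps) 13 49020928 20000000000 32) = true := by
  decide +kernel

theorem b187 : (652682 : ℝ) / 10000000000 ≤ ∑ n ∈ Finset.range 262144, G (49020928 + n) := by
  have h := seg_bound' (M := 18) (t := 13) (K := 32) (by norm_num) (by norm_num) (by norm_num) (by norm_num)
    (by norm_num) (by norm_num) c187
  exact_mod_cast h

theorem d187 : (5372432 : ℝ) / 10000000000 ≤ ∑ n ∈ Finset.range 2097152, G (47185920 + n) := by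
  have h := join d186 b187
  norm_num at h ⊢
  exact h

end Pool.Agent.V11300.G6
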