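import Pool.Agent.V11300.KS.Complete

set_option autoImplicit false
set_option maxRecDepth 100000

namespace Pool.Agent.V11300.G6

open Pool.Agent.V11300.KSW

theorem c188 : Nat.ble 656691 (total (flds 18 13 262144 49283072 ps) 13 49283072 20000000000 32) = true := by
  decide +kernel

theorem b188 : (656691 : ℝ) / 10000000000 ≤ ∑ n ∈ Finset.range 262144, G (49283072 + n) := by
  have h := seg_bound' (M := 18) (t := 13) (K := 32) (by norm_num) (by norm_num) (by norm_num) (by norm_num)
    (by norm_num) (by norm_num) c188
  exact_mod_cast h

theorem c189 : Nat.ble 655508 (total (flds 18 13 262144 49545216 ps) 13 49545216 20000000000 32) = true := by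
  decide +kernel

theorem b189 : (655508 : ℝ) / 10000000000 ≤ ∑ n ∈ Finset.range 262144, G (49545216 + n) := by
  have h := seg_bound' (M := 18) (t := 13) (K := 32) (by norm_num) (by norm_num) (by norm_num) (by norm_num)
    (by norm_num) (by norm_num) c189
  exact_mod_cast h

theorem d189 : (1312199 : ℝ) / 10000000000 ≤ ∑ n ∈ Finset.range 524288, G (49283072 + n) := by
  have h := join b188 b189
  norm_num at h ⊢
  exact h

theorem c190 : Nat.ble 660609 (total (flds 18 13 262144 49807360 ps) 13 49807360 20000000000 32) = true := by
  decide +kernel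

theorem b190 : (660609 : ℝ) / 10000000000 ≤ ∑ n ∈ Finset.range 262144, G (49807360 + n) := by
  have h := seg_bound' (M := 18) (t := 13) (K := 32) (by norm_num) (by norm_num) (by norm_num) (by norm_num)
    (by norm_num) (by norm_num) c190
  exact_mod_cast h

theorem d190 : (1972808 : ℝ) / 10000000000 ≤ ∑ n ∈ Finset.range 786432, G (49283072 + n) := by
  have h := join d189 b190
  norm_num at h ⊢
  exact h

theorem c191 : Nat.ble 651785 (total (flds 18 13 262144 50069504 ps) 13 50069504 20000000000 32) = true := by
  decide +kernel

theorem b191 : (651785 : ℝ) / 10000000000 ≤ ∑ n ∈ Finset.range 262144, G (50069504 + n) := by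
  have h := seg_bound' (M := 18) (t := 13) (K := 32) (by norm_num) (by norm_num) (by norm_num) (by norm_num)
    (by norm_num) (by norm_num) c191
  exact_mod_cast h

theorem d191 : (2624593 : ℝ) / 10000000000 ≤ ∑ n ∈ Finset.range 1048576, G (49283072 + n) := by
  have h := join d190 b191
  norm_num at h ⊢
  exact h

theorem c192 : Nat.ble 637627 (total (flds 18 13 262144 50331648 ps) 13 50331648 20000000000 32) = true := by
  decide +kernel

theorem b192 : (637627 : ℝ) / 10000000000 ≤ ∑ n ∈ Finset.range 262144, G (50331648 + n) := by
  have h := seg_bound' (M := 18) (t := 13) (K := 32) (by norm_num) (by norm_num) (by norm_num) (by norm_num)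
    (by norm_num) (by norm_num) c192
  exact_mod_cast h

theorem d192 : (3262220 : ℝ) / 10000000000 ≤ ∑ n ∈ Finset.range 1310720, G (49283072 + n) := by
  have h := join d191 b192
  norm_num at h ⊢
  exact h

theorem c193 : Nat.ble 633921 (total (flds 18 13 262144 50593792 ps) 13 50593792 20000000000 32) = true := by
  decide +kernel

theorem b193 : (633921 : ℝ) / 10000000000 ≤ ∑ n ∈ Finset.range 262144, G (50593792 + n) := by
  have h := seg_bound' (M := 18) (t := 13) (K := 32) (by norm_num) (by norm_num) (by norm_num) (by norm_num)
    (by norm_num) (by norm_num) c193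
  exact_mod_cast h

theorem d193 : (3896141 : ℝ) / 10000000000 ≤ ∑ n ∈ Finset.range 1572864, G (49283072 + n) := by
  have h := join d192 b193
  norm_num at h ⊢
  exact h

theorem c194 : Nat.ble 632716 (total (flds 18 13 262144 50855936 ps) 13 50855936 20000000000 32) = true := by
  decide +kernel

theorem b194 : (632716 : ℝ) / 10000000000 ≤ ∑ n ∈ Finset.range 262144, G (50855936 + n) := by
  have h := seg_bound' (M := 18) (t := 13) (K := 32) (by norm_num) (by norm_num) (by norm_num) (by norm_num)
    (by norm_num) (by norm_num) c194
  exact_mod_cast h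

theorem d194 : (4528857 : ℝ) / 10000000000 ≤ ∑ n ∈ Finset.range 1835008, G (49283072 + n) := by
  have h := join d193 b194
  norm_num at h ⊢
  exact h

theorem c195 : Nat.ble 632656 (total (flds 18 13 262144 51118080 ps) 13 51118080 20000000000 32) = true := by
  decide +kernel

theorem b195 : (632656 : ℝ) / 10000000000 ≤ ∑ n ∈ Finset.range 262144, G (51118080 + n) := by
  have h := seg_bound' (M := 18) (t := 13) (K := 32) (by norm_num) (by norm_num) (by norm_num) (by norm_num)
    (by norm_num) (by norm_num) c195
  exact_mod_cast h

theorem d195 : (5161513 : ℝ) / 10000000000 ≤ ∑ n ∈ Finset.range 2097152, G (49283072 + n) := by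
  have h := join d194 b195
  norm_num at h ⊢
  exact h

end Pool.Agent.V11300.G6
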