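import Pool.Agent.V11300.KS.Complete

set_option autoImplicit false
set_option maxRecDepth 100000

namespace Pool.Agent.V11300.G6

open Pool.Agent.V11300.KSW

theorem c196 : Nat.ble 619602 (total (flds 18 13 262144 51380224 ps) 13 51380224 20000000000 32) = true := by
  decide +kernel

theorem b196 : (619602 : ℝ) / 10000000000 ≤ ∑ n ∈ Finset.range 262144, G (51380224 + n) := by
  have h := seg_bound' (M := 18) (t := 13) (K := 32) (by norm_num) (by norm_num) (by norm_num) (by norm_num)
    (by norm_num) (by norm_num) c196
  exact_mod_cast h

theorem c197 : Nat.ble 615695 (total (flds 18 13 262144 51642368 ps) 13 51642368 20000000000 32) = true := by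
  decide +kernel

theorem b197 : (615695 : ℝ) / 10000000000 ≤ ∑ n ∈ Finset.range 262144, G (51642368 + n) := by
  have h := seg_bound' (M := 18) (t := 13) (K := 32) (by norm_num) (by norm_num) (by norm_num) (by norm_num)
    (by norm_num) (by norm_num) c197
  exact_mod_cast h

theorem d197 : (1235297 : ℝ) / 10000000000 ≤ ∑ n ∈ Finset.range 524288, G (51380224 + n) := by
  have h := join b196 b197
  norm_num at h ⊢
  exact h

theorem c198 : Nat.ble 622526 (total (flds 18 13 262144 51904512 ps) 13 51904512 20000000000 32) = true := by
  decide +kernel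

theorem b198 : (622526 : ℝ) / 10000000000 ≤ ∑ n ∈ Finset.range 262144, G (51904512 + n) := by
  have h := seg_bound' (M := 18) (t := 13) (K := 32) (by norm_num) (by norm_num) (by norm_num) (by norm_num)
    (by norm_num) (by norm_num) c198
  exact_mod_cast h

theorem d198 : (1857823 : ℝ) / 10000000000 ≤ ∑ n ∈ Finset.range 786432, G (51380224 + n) := by
  have h := join d197 b198
  norm_num at h ⊢
  exact h

theorem c199 : Nat.ble 606081 (total (flds 18 13 262144 52166656 ps) 13 52166656 20000000000 32) = true := by
  decide +kernel

theorem b199 : (606081 : ℝ) / 10000000000 ≤ ∑ n ∈ Finset.range 262144, G (52166656 + n) := by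
  have h := seg_bound' (M := 18) (t := 13) (K := 32) (by norm_num) (by norm_num) (by norm_num) (by norm_num)
    (by norm_num) (by norm_num) c199
  exact_mod_cast h

theorem d199 : (2463904 : ℝ) / 10000000000 ≤ ∑ n ∈ Finset.range 1048576, G (51380224 + n) := by
  have h := join d198 b199
  norm_num at h ⊢
  exact h

theorem c200 : Nat.ble 607619 (total (flds 18 13 262144 52428800 ps) 13 52428800 20000000000 32) = true := by
  decide +kernel

theorem b200 : (607619 : ℝ) / 10000000000 ≤ ∑ n ∈ Finset.range 262144, G (52428800 + n) := by
  have h := seg_bound' (M := 18) (t := 13) (K := 32) (by norm_num) (by norm_num) (by norm_num) (by norm_num)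
    (by norm_num) (by norm_num) c200
  exact_mod_cast h

theorem d200 : (3071523 : ℝ) / 10000000000 ≤ ∑ n ∈ Finset.range 1310720, G (51380224 + n) := by
  have h := join d199 b200
  norm_num at h ⊢
  exact h

theorem c201 : Nat.ble 609156 (total (flds 18 13 262144 52690944 ps) 13 52690944 20000000000 32) = true := by
  decide +kernel

theorem b201 : (609156 : ℝ) / 10000000000 ≤ ∑ n ∈ Finset.range 262144, G (52690944 + n) := by
  have h := seg_bound' (M := 18) (t := 13) (K := 32) (by norm_num) (by norm_num) (by norm_num) (by norm_num)
    (by norm_num) (by norm_num) c201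
  exact_mod_cast h

theorem d201 : (3680679 : ℝ) / 10000000000 ≤ ∑ n ∈ Finset.range 1572864, G (51380224 + n) := by
  have h := join d200 b201
  norm_num at h ⊢
  exact h

theorem c202 : Nat.ble 600121 (total (flds 18 13 262144 52953088 ps) 13 52953088 20000000000 32) = true := by
  decide +kernel

theorem b202 : (600121 : ℝ) / 10000000000 ≤ ∑ n ∈ Finset.range 262144, G (52953088 + n) := by
  have h := seg_bound' (M := 18) (t := 13) (K := 32) (by norm_num) (by norm_num) (by norm_num) (by norm_num)
    (by norm_num) (by norm_num) c202
  exact_mod_cast h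

theorem d202 : (4280800 : ℝ) / 10000000000 ≤ ∑ n ∈ Finset.range 1835008, G (51380224 + n) := by
  have h := join d201 b202
  norm_num at h ⊢
  exact h

theorem c203 : Nat.ble 600918 (total (flds 18 13 262144 53215232 ps) 13 53215232 20000000000 32) = true := by
  decide +kernel

theorem b203 : (600918 : ℝ) / 10000000000 ≤ ∑ n ∈ Finset.range 262144, G (53215232 + n) := by
  have h := seg_bound' (M := 18) (t := 13) (K := 32) (by norm_num) (by norm_num) (by norm_num) (by norm_num)
    (by norm_num) (by norm_num) c203
  exact_mod_cast h

theorem d203 : (4881718 : ℝ) / 10000000000 ≤ ∑ n ∈ Finset.range 2097152, G (51380224 + n) := by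
  have h := join d202 b203
  norm_num at h ⊢
  exact h

end Pool.Agent.V11300.G6
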