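import Pool.Agent.V11300.G6.C00
import Pool.Agent.V11300.G6.C01
import Pool.Agent.V11300.G6.C02
import Pool.Agent.V11300.G6.C03
import Pool.Agent.V11300.G6.C04
import Pool.Agent.V11300.G6.C05
import Pool.Agent.V11300.G6.C06
import Pool.Agent.V11300.G6.C07
import Pool.Agent.V11300.G6.C08
import Pool.Agent.V11300.G6.C09
import Pool.Agent.V11300.G6.C10
import Pool.Agent.V11300.G6.C11
import Pool.Agent.V11300.G6.C12
import Pool.Agent.V11300.G6.C13
import Pool.Agent.V11300.G6.C14
import Pool.Agent.V11300.G6.C15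
import Pool.Agent.V11300.G6.C16
import Pool.Agent.V11300.G6.C17
import Pool.Agent.V11300.G6.C18
import Pool.Agent.V11300.G6.C19
import Pool.Agent.V11300.G6.C20
import Pool.Agent.V11300.G6.C21
import Pool.Agent.V11300.G6.C22
import Pool.Agent.V11300.G6.C23
import Pool.Agent.V11300.G6.C24
import Pool.Agent.V11300.G6.C25

set_option autoImplicit false

namespace Pool.Agent.V11300.G6

open Pool.Agent.V11300.KSW

theorem step {a len : ℕ} {A V : ℝ} (h1 : A ≤ ∑ n ∈ Finset.range a, G n)
    (h2 : V ≤ ∑ n ∈ Finset.range len, G (a + n)) : A + V ≤ ∑ n ∈ Finset.range (a + len), G n := by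
  rw [Finset.sum_range_add]
  exact add_le_add h1 h2

theorem s0 : (6700141297 : ℝ) / 10000000000 ≤ ∑ n ∈ Finset.range 4096, G n := bs

theorem s1 : (7203882977 : ℝ) / 10000000000 ≤ ∑ n ∈ Finset.range 16384, G n := by
  have h := step s0 ba0
  norm_num at h ⊢
  exact h

theorem s2 : (7605325618 : ℝ) / 10000000000 ≤ ∑ n ∈ Finset.range 65536, G n := by
  have h := step s1 ba1
  norm_num at h ⊢
  exact h

theorem s3 : (7937706693 : ℝ) / 10000000000 ≤ ∑ n ∈ Finset.range 262144, G n := by
  have h := step s2 ba2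
  norm_num at h ⊢
  exact h

theorem s4 : (8215945780 : ℝ) / 10000000000 ≤ ∑ n ∈ Finset.range 1048576, G n := by
  have h := step s3 ba3
  norm_num at h ⊢
  exact h

theorem s5 : (8406099377 : ℝ) / 10000000000 ≤ ∑ n ∈ Finset.range 3145728, G n := by
  have h := step s4 d11
  norm_num at h ⊢
  exact h

theorem s6 : (8487353926 : ℝ) / 10000000000 ≤ ∑ n ∈ Finset.range 5242880, G n := by
  have h := step s5 d19
  norm_num at h ⊢
  exact h

theorem s7 : (8538355243 : ℝ) / 10000000000 ≤ ∑ n ∈ Finset.range 7340032, G n := by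
  have h := step s6 d27
  norm_num at h ⊢
  exact h

theorem s8 : (8575432947 : ℝ) / 10000000000 ≤ ∑ n ∈ Finset.range 9437184, G n := by
  have h := step s7 d35
  norm_num at h ⊢
  exact h

theorem s9 : (8604354682 : ℝ) / 10000000000 ≤ ∑ n ∈ Finset.range 11534336, G n := by
  have h := step s8 d43
  norm_num at h ⊢
  exact h

theorem s10 : (8627995420 : ℝ) / 10000000000 ≤ ∑ n ∈ Finset.range 13631488, G n := by
  have h := step s9 d51
  norm_num at h ⊢
  exact h

theorem s11 : (8647965915 : ℝ) / 10000000000 ≤ ∑ n ∈ Finset.range 15728640, G n := by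
  have h := step s10 d59
  norm_num at h ⊢
  exact h

theorem s12 : (8665101027 : ℝ) / 10000000000 ≤ ∑ n ∈ Finset.range 17825792, G n := by
  have h := step s11 d67
  norm_num at h ⊢
  exact h

theorem s13 : (8680205530 : ℝ) / 10000000000 ≤ ∑ n ∈ Finset.range 19922944, G n := by
  have h := step s12 d75
  norm_num at h ⊢
  exact h

theorem s14 : (8693651754 : ℝ) / 10000000000 ≤ ∑ n ∈ Finset.range 22020096, G n := by
  have h := step s13 d83
  norm_num at h ⊢
  exact h

theorem s15 : (8705761088 : ℝ) / 10000000000 ≤ ∑ n ∈ Finset.range 24117248, G n := by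
  have h := step s14 d91
  norm_num at h ⊢
  exact h

theorem s16 : (8716719141 : ℝ) / 10000000000 ≤ ∑ n ∈ Finset.range 26214400, G n := by
  have h := step s15 d99
  norm_num at h ⊢
  exact h

theorem s17 : (8726796756 : ℝ) / 10000000000 ≤ ∑ n ∈ Finset.range 28311552, G n := by
  have h := step s16 d107
  norm_num at h ⊢
  exact h

theorem s18 : (8736095172 : ℝ) / 10000000000 ≤ ∑ n ∈ Finset.range 30408704, G n := by
  have h := step s17 d115
  norm_num at h ⊢
  exact h

theorem s19 : (8744641531 : ℝ) / 10000000000 ≤ ∑ n ∈ Finset.range 32505856, G n := by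
  have h := step s18 d123
  norm_num at h ⊢
  exact h

theorem s20 : (8752641210 : ℝ) / 10000000000 ≤ ∑ n ∈ Finset.range 34603008, G n := by
  have h := step s19 d131
  norm_num at h ⊢
  exact h

theorem s21 : (8760144223 : ℝ) / 10000000000 ≤ ∑ n ∈ Finset.range 36700160, G n := by
  have h := step s20 d139
  norm_num at h ⊢
  exact h

theorem s22 : (8767172666 : ℝ) / 10000000000 ≤ ∑ n ∈ Finset.range 38797312, G n := by
  have h := step s21 d147
  norm_num at h ⊢
  exact h

theorem s23 : (8773782676 : ℝ) / 10000000000 ≤ ∑ n ∈ Finset.range 40894464, G n := by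
  have h := step s22 d155
  norm_num at h ⊢
  exact h

theorem s24 : (8780061084 : ℝ) / 10000000000 ≤ ∑ n ∈ Finset.range 42991616, G n := by
  have h := step s23 d163
  norm_num at h ⊢
  exact h

theorem s25 : (8785992262 : ℝ) / 10000000000 ≤ ∑ n ∈ Finset.range 45088768, G n := by
  have h := step s24 d171
  norm_num at h ⊢
  exact h

theorem s26 : (8791631448 : ℝ) / 10000000000 ≤ ∑ n ∈ Finset.range 47185920, G n := by
  have h := step s25 d179
  norm_num at h ⊢
  exact h

theorem s27 : (8797003880 : ℝ) / 10000000000 ≤ ∑ n ∈ Finset.range 49283072, G n := by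
  have h := step s26 d187
  norm_num at h ⊢
  exact h

theorem s28 : (8802165393 : ℝ) / 10000000000 ≤ ∑ n ∈ Finset.range 51380224, G n := by
  have h := step s27 d195
  norm_num at h ⊢
  exact h

theorem s29 : (8807047111 : ℝ) / 10000000000 ≤ ∑ n ∈ Finset.range 53477376, G n := by
  have h := step s28 d203
  norm_num at h ⊢
  exact h

end Pool.Agent.V11300.G6
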