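import Pool.Agent.V11300.KS.Complete

set_option autoImplicit false
set_option maxRecDepth 100000

namespace Pool.Agent.V11300.G6

open Pool.Agent.V11300.KSW

theorem ca0 : Nat.ble 503741680 (total (flds 14 5 12288 4096 ps) 5 4096 20000000000 384) = true := by
  decide +kernel

theorem ba0 : (503741680 : ℝ) / 10000000000 ≤ ∑ n ∈ Finset.range 12288, G (4096 + n) := by
  have h := seg_bound' (M := 14) (t := 5) (K := 384) (by norm_num) (by norm_num) (by norm_num) (by norm_num)
    (by norm_num) (by norm_num) ca0
  exact_mod_cast h

theorem ca1 : Nat.ble 401442641 (total (flds 16 7 49152 16384 ps) 7 16384 20000000000 384) = true := by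
  decide +kernel

theorem ba1 : (401442641 : ℝ) / 10000000000 ≤ ∑ n ∈ Finset.range 49152, G (16384 + n) := by
  have h := seg_bound' (M := 16) (t := 7) (K := 384) (by norm_num) (by norm_num) (by norm_num) (by norm_num)
    (by norm_num) (by norm_num) ca1
  exact_mod_cast h

theorem ca2 : Nat.ble 332381075 (total (flds 18 9 196608 65536 ps) 9 65536 20000000000 384) = true := by
  decide +kernel

theorem ba2 : (332381075 : ℝ) / 10000000000 ≤ ∑ n ∈ Finset.range 196608, G (65536 + n) := by
  have h := seg_bound' (M := 18) (t := 9) (K := 384) (by norm_num) (by norm_num) (by norm_num) (by norm_num)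
    (by norm_num) (by norm_num) ca2
  exact_mod_cast h

theorem ca3 : Nat.ble 278239087 (total (flds 20 11 786432 262144 ps) 11 262144 20000000000 384) = true := by
  decide +kernel

theorem ba3 : (278239087 : ℝ) / 10000000000 ≤ ∑ n ∈ Finset.range 786432, G (262144 + n) := by
  have h := seg_bound' (M := 20) (t := 11) (K := 384) (by norm_num) (by norm_num) (by norm_num) (by norm_num)
    (by norm_num) (by norm_num) ca3
  exact_mod_cast h

theorem cs : Nat.ble 6700141297 (smallSum 4096) = true := by decide +kernel

theorem bs : (6700141297 : ℝ) / 10000000000 ≤ ∑ n ∈ Finset.range 4096, G n := by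
  have h := small_bound 4096 (by norm_num)
  have h2 : ((6700141297 : ℕ) : ℝ) ≤ (smallSum 4096 : ℝ) := by exact_mod_cast Nat.le_of_ble_eq_true cs
  push_cast at h2
  refine le_trans (div_le_div_of_nonneg_right h2 (by norm_num)) h

end Pool.Agent.V11300.G6
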