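import Pool.Agent.V11300.KS.Complete

set_option autoImplicit false
set_option maxRecDepth 100000

namespace Pool.Agent.V11300.G6

open Pool.Agent.V11300.KSW

theorem c116 : Nat.ble 1092825 (total (flds 18 13 262144 30408704 ps) 13 30408704 20000000000 32) = true := by
  decide +kernel

theorem b116 : (1092825 : ℝ) / 10000000000 ≤ ∑ n ∈ Finset.range 262144, G (30408704 + n) := by
  have h := seg_bound' (M := 18) (t := 13) (K := 32) (by norm_num) (by norm_num) (by norm_num) (by norm_num)
    (by norm_num) (by norm_num) c116
  exact_mod_cast h

theorem c117 : Nat.ble 1098670 (total (flds 18 13 262144 30670848 ps) 13 30670848 20000000000 32) = true := by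
  decide +kernel

theorem b117 : (1098670 : ℝ) / 10000000000 ≤ ∑ n ∈ Finset.range 262144, G (30670848 + n) := by
  have h := seg_bound' (M := 18) (t := 13) (K := 32) (by norm_num) (by norm_num) (by norm_num) (by norm_num)
    (by norm_num) (by norm_num) c117
  exact_mod_cast h

theorem d117 : (2191495 : ℝ) / 10000000000 ≤ ∑ n ∈ Finset.range 524288, G (30408704 + n) := by
  have h := join b116 b117
  norm_num at h ⊢
  exact h

theorem c118 : Nat.ble 1088581 (total (flds 18 13 262144 30932992 ps) 13 30932992 20000000000 32) = true := by
  decide +kernel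

theorem b118 : (1088581 : ℝ) / 10000000000 ≤ ∑ n ∈ Finset.range 262144, G (30932992 + n) := by
  have h := seg_bound' (M := 18) (t := 13) (K := 32) (by norm_num) (by norm_num) (by norm_num) (by norm_num)
    (by norm_num) (by norm_num) c118
  exact_mod_cast h

theorem d118 : (3280076 : ℝ) / 10000000000 ≤ ∑ n ∈ Finset.range 786432, G (30408704 + n) := by
  have h := join d117 b118
  norm_num at h ⊢
  exact h

theorem c119 : Nat.ble 1076112 (total (flds 18 13 262144 31195136 ps) 13 31195136 20000000000 32) = true := by
  decide +kernel

theorem b119 : (1076112 : ℝ) / 10000000000 ≤ ∑ n ∈ Finset.range 262144, G (31195136 + n) := by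
  have h := seg_bound' (M := 18) (t := 13) (K := 32) (by norm_num) (by norm_num) (by norm_num) (by norm_num)
    (by norm_num) (by norm_num) c119
  exact_mod_cast h

theorem d119 : (4356188 : ℝ) / 10000000000 ≤ ∑ n ∈ Finset.range 1048576, G (30408704 + n) := by
  have h := join d118 b119
  norm_num at h ⊢
  exact h

theorem c120 : Nat.ble 1063344 (total (flds 18 13 262144 31457280 ps) 13 31457280 20000000000 32) = true := by
  decide +kernel

theorem b120 : (1063344 : ℝ) / 10000000000 ≤ ∑ n ∈ Finset.range 262144, G (31457280 + n) := by
  have h := seg_bound' (M := 18) (t := 13) (K := 32) (by norm_num) (by norm_num) (by norm_num) (by norm_num)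
    (by norm_num) (by norm_num) c120
  exact_mod_cast h

theorem d120 : (5419532 : ℝ) / 10000000000 ≤ ∑ n ∈ Finset.range 1310720, G (30408704 + n) := by
  have h := join d119 b120
  norm_num at h ⊢
  exact h

theorem c121 : Nat.ble 1034076 (total (flds 18 13 262144 31719424 ps) 13 31719424 20000000000 32) = true := by
  decide +kernel

theorem b121 : (1034076 : ℝ) / 10000000000 ≤ ∑ n ∈ Finset.range 262144, G (31719424 + n) := by
  have h := seg_bound' (M := 18) (t := 13) (K := 32) (by norm_num) (by norm_num) (by norm_num) (by norm_num)
    (by norm_num) (by norm_num) c121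
  exact_mod_cast h

theorem d121 : (6453608 : ℝ) / 10000000000 ≤ ∑ n ∈ Finset.range 1572864, G (30408704 + n) := by
  have h := join d120 b121
  norm_num at h ⊢
  exact h

theorem c122 : Nat.ble 1049193 (total (flds 18 13 262144 31981568 ps) 13 31981568 20000000000 32) = true := by
  decide +kernel

theorem b122 : (1049193 : ℝ) / 10000000000 ≤ ∑ n ∈ Finset.range 262144, G (31981568 + n) := by
  have h := seg_bound' (M := 18) (t := 13) (K := 32) (by norm_num) (by norm_num) (by norm_num) (by norm_num)
    (by norm_num) (by norm_num) c122
  exact_mod_cast h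

theorem d122 : (7502801 : ℝ) / 10000000000 ≤ ∑ n ∈ Finset.range 1835008, G (30408704 + n) := by
  have h := join d121 b122
  norm_num at h ⊢
  exact h

theorem c123 : Nat.ble 1043558 (total (flds 18 13 262144 32243712 ps) 13 32243712 20000000000 32) = true := by
  decide +kernel

theorem b123 : (1043558 : ℝ) / 10000000000 ≤ ∑ n ∈ Finset.range 262144, G (32243712 + n) := by
  have h := seg_bound' (M := 18) (t := 13) (K := 32) (by norm_num) (by norm_num) (by norm_num) (by norm_num)
    (by norm_num) (by norm_num) c123
  exact_mod_cast h

theorem d123 : (8546359 : ℝ) / 10000000000 ≤ ∑ n ∈ Finset.range 2097152, G (30408704 + n) := by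
  have h := join d122 b123
  norm_num at h ⊢
  exact h

end Pool.Agent.V11300.G6
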